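import Pool.Agent.MP_d9472f_gt.RatDefs
import Pool.Agent.MP_d9472f_gt.Mg.Curves

/-! Definitions and elementary tools for the curves that are not images of a given rational
continuum. -/

open Set Filter Topology

noncomputable section
namespace Pool.Agent.MP_d9472f_gt.Q2

/-! ### boundary bumping, gluing along `⌊z⌋` -/

theorem BB {X : Type*} [TopologicalSpace X] [T2Space X] {K : Set X} (hK : IsCompact K)
    (hc : IsPreconnected K) {φ : X → ℝ} (hφ : ContinuousOn φ K) {c : ℝ} {x y : X} (hx : x ∈ K)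
    (hxc : φ x ≤ c) (hy : y ∈ K) (hyc : c ≤ φ y) :
    ∃ K' ⊆ K, IsCompact K' ∧ IsPreconnected K' ∧ x ∈ K' ∧ (∀ z ∈ K', φ z ≤ c) ∧
      ∃ z ∈ K', φ z = c := by
  rcases hxc.eq_or_lt with h | h
  · exact ⟨{x}, by simpa using hx, isCompact_singleton, isPreconnected_singleton, rfl,
      by simpa using hxc, x, rfl, h⟩
  by_cases hall : ∀ z ∈ K, φ z ≤ c
  · exact ⟨K, subset_rfl, hK, hc, hx, hall, y, hy, le_antisymm (hall y hy) hyc⟩
  have : CompactSpace K := isCompact_iff_compactSpace.1 hK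
  have : PreconnectedSpace K := isPreconnected_iff_preconnectedSpace.1 hc
  have hψ : Continuous fun z : K => φ z := continuousOn_iff_continuous_domRestrict.1 hφ
  obtain ⟨C, hC, hCc, hCs, hxC, hCU⟩ := Pool.Agent.Lib.Continuum.boundary_bumping
    (C := (univ : Set K)) (U := {z | φ z < c}) (D := {z | φ z ≤ c}) isCompact_univ
    isPreconnected_univ (isOpen_lt hψ continuous_const) (isClosed_le hψ continuous_const)
    (fun z (hz : φ z < c) => (hz.le : φ z ≤ c)) (x := ⟨x, hx⟩) trivial h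
    (fun hs => hall fun z hz => hs (mem_univ (⟨z, hz⟩ : K)))
  obtain ⟨z, hz, hzc⟩ := not_subset.1 hCU
  refine ⟨Subtype.val '' C, by rintro _ ⟨z, -, rfl⟩; exact z.2, hC.image continuous_subtype_val,
    hCc.image _ continuous_subtype_val.continuousOn, ⟨_, hxC, rfl⟩, ?_, z, ⟨z, hz, rfl⟩,
    le_antisymm (hCs hz).2 (not_lt.1 hzc)⟩
  rintro _ ⟨w, hw, rfl⟩
  exact (hCs hw).2

theorem BB2 {X : Type*} [TopologicalSpace X] [T2Space X] {K : Set X} (hK : IsCompact K)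
    (hc : IsPreconnected K) {φ : X → ℝ} (hφ : ContinuousOn φ K) {a b : ℝ} (hab : a ≤ b) {x y : X}
    (hx : x ∈ K) (hxa : φ x ≤ a) (hy : y ∈ K) (hyb : b ≤ φ y) :
    ∃ K' ⊆ K, IsCompact K' ∧ IsPreconnected K' ∧ (∀ z ∈ K', φ z ∈ Icc a b) ∧
      (∃ z ∈ K', φ z = a) ∧ ∃ z ∈ K', φ z = b := by
  obtain ⟨K1, h1, h2, h3, h4, h5, z, hz, hzb⟩ := BB hK hc hφ hx (hxa.trans hab) hy hyb
  obtain ⟨K2, k1, k2, k3, k4, k5, w, hw, hwa⟩ := BB h2 h3 (hφ.mono h1).neg (c := -a) hz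
    (by rw [Pi.neg_apply, hzb]; linarith) h4 (by rw [Pi.neg_apply]; linarith)
  refine ⟨K2, k1.trans h1, k2, k3, fun v hv => ⟨?_, h5 v (k1 hv)⟩, ⟨w, hw, ?_⟩, z, k4, hzb⟩
  · have := k5 v hv; rw [Pi.neg_apply] at this; linarith
  · rw [Pi.neg_apply] at hwa; linarith

/-- gluing along the integer part of a nonnegative continuous function -/
theorem glue {X Z : Type*} [TopologicalSpace X] [TopologicalSpace Z] {S : Set X} {z : X → ℝ}
    (hz : ContinuousOn z S) (h0 : ∀ x ∈ S, 0 ≤ z x) {F : ℕ → X → Z}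
    (hF : ∀ m : ℕ, ContinuousOn (F m) {x ∈ S | z x ∈ Icc (m : ℝ) (m + 1)})
    (hm : ∀ m : ℕ, ∀ x ∈ S, z x = (m + 1 : ℕ) → F (m + 1) x = F m x) :
    ContinuousOn (fun x => F ⌊z x⌋₊ x) S := by
  intro x hx
  have key : ∀ m : ℕ, z x ∈ Icc (m : ℝ) (m + 1) →
      ContinuousWithinAt (fun x => F ⌊z x⌋₊ x) {x ∈ S | z x ∈ Icc (m : ℝ) (m + 1)} x := by
    intro m hxm
    have e : ∀ y ∈ {x ∈ S | z x ∈ Icc (m : ℝ) (m + 1)}, F ⌊z y⌋₊ y = F m y := by
      rintro y ⟨hy, h1, h2⟩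
      rcases h2.eq_or_lt with h | h
      · have h' : z y = (m + 1 : ℕ) := by rw [h]; push_cast; rfl
        rw [h', Nat.floor_natCast]; exact hm m y hy h'
      · rw [(Nat.floor_eq_iff (h0 y hy)).2 ⟨h1, h⟩]
    exact (hF m x ⟨hx, hxm⟩).congr e (e x ⟨hx, hxm⟩)
  set n := ⌊z x⌋₊ with hn
  have hn1 : (n : ℝ) ≤ z x := Nat.floor_le (h0 x hx)
  have hn2 : z x < n + 1 := Nat.lt_floor_add_one _
  by_cases hc : (n : ℝ) < z x ∨ n = 0
  · refine (key n ⟨hn1, hn2.le⟩).mono_of_mem_nhdsWithin ?_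
    rcases hc with hc | hc
    · filter_upwards [self_mem_nhdsWithin, (hz x hx).eventually (Ioo_mem_nhds hc hn2)] with y h1 h2
      exact ⟨h1, h2.1.le, h2.2.le⟩
    · filter_upwards [self_mem_nhdsWithin, (hz x hx).eventually (Iio_mem_nhds hn2)] with y h1 h2
      exact ⟨h1, by rw [hc]; simpa using h0 y h1, le_of_lt h2⟩
  · push Not at hc
    obtain ⟨m, hm'⟩ := Nat.exists_eq_succ_of_ne_zero hc.2
    have e : z x = m + 1 := by
      have := le_antisymm hc.1 hn1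
      rw [this, hm']; push_cast; rfl
    have k1 := key m ⟨by linarith, e.le⟩
    have k2 := key (m + 1) ⟨by push_cast; linarith, by push_cast; linarith⟩
    refine (k1.union k2).mono_of_mem_nhdsWithin ?_
    filter_upwards [self_mem_nhdsWithin, (hz x hx).eventually
      (Ioo_mem_nhds (show (m : ℝ) < z x by linarith) (show z x < m + 2 by linarith))] with y h1 h2
    rcases le_total (z y) (m + 1) with h | h
    · exact Or.inl ⟨h1, h2.1.le, h⟩
    · exact Or.inr ⟨h1, by push_cast; exact h, by push_cast; linarith [h2.2]⟩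

/-! ### zigzags -/

/-- distance to the nearest even integer -/
def tri (z : ℝ) : ℝ := |z - 2 * round (z / 2)|

theorem tri_eq (z : ℝ) : tri z = 2 * ‖((z / 2 : ℝ) : UnitAddCircle)‖ := by
  rw [UnitAddCircle.norm_eq, tri, ← abs_of_pos (two_pos (α := ℝ)), ← abs_mul, abs_two]
  congr 1; ring

@[fun_prop] theorem continuous_tri : Continuous tri := by
  have : tri = fun z => 2 * ‖((z / 2 : ℝ) : UnitAddCircle)‖ := funext tri_eq
  rw [this]; fun_prop

theorem tri_nonneg (z : ℝ) : 0 ≤ tri z := abs_nonneg _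

theorem tri_le_one (z : ℝ) : tri z ≤ 1 := by
  have := abs_sub_round (z / 2)
  rw [tri, show z - 2 * round (z / 2) = 2 * (z / 2 - round (z / 2)) by ring, abs_mul, abs_two]
  linarith

theorem tri_of_abs_le {z : ℝ} (k : ℤ) (h : |z - 2 * k| ≤ 1) : tri z = |z - 2 * k| := by
  have h1 := round_le (z / 2) k
  have e : ∀ j : ℤ, |z - 2 * j| = 2 * |z / 2 - j| := fun j => by
    rw [show z - 2 * j = 2 * (z / 2 - j) by ring, abs_mul, abs_two]
  rw [tri]
  by_cases hk : round (z / 2) = k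
  · rw [hk]
  · have h2 : (1 : ℝ) ≤ |((round (z / 2) : ℤ) : ℝ) - k| := by
      exact_mod_cast Int.one_le_abs (sub_ne_zero.2 hk)
    have h3 := abs_sub_le ((round (z / 2) : ℤ) : ℝ) (z / 2) k
    rw [abs_sub_comm ((round (z / 2) : ℤ) : ℝ) (z / 2)] at h3
    rw [e] at h ⊢; rw [e]; linarith

theorem tri_even {m : ℕ} (hm : Even m) {z : ℝ} (h : z ∈ Icc (m : ℝ) (m + 1)) : tri z = z - m := by
  obtain ⟨k, rfl⟩ := hm
  have e : z - 2 * ((k : ℤ) : ℝ) = z - (k + k : ℕ) := by push_cast; ring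
  rw [tri_of_abs_le (k : ℤ) (by rw [e, abs_of_nonneg (by linarith [h.1])]; linarith [h.2]), e,
    abs_of_nonneg (by linarith [h.1])]

theorem tri_odd {m : ℕ} (hm : Odd m) {z : ℝ} (h : z ∈ Icc (m : ℝ) (m + 1)) :
    tri z = m + 1 - z := by
  obtain ⟨k, rfl⟩ := hm
  have e : z - 2 * (((k : ℤ) + 1 : ℤ) : ℝ) = -((2 * k + 1 : ℕ) + 1 - z) := by push_cast; ring
  rw [tri_of_abs_le ((k : ℤ) + 1) (by
    rw [e, abs_neg, abs_of_nonneg (by linarith [h.2])]; linarith [h.1]), e, abs_neg,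
    abs_of_nonneg (by linarith [h.2])]

theorem tri_nat_even {m : ℕ} (hm : Even m) : tri m = 0 := by
  rw [tri_even hm ⟨le_rfl, by linarith⟩, sub_self]

theorem tri_nat_odd {m : ℕ} (hm : Odd m) : tri m = 1 := by
  rw [tri_odd hm ⟨le_rfl, by linarith⟩]; ring

theorem tri_zero : tri 0 = 0 := by simpa using tri_nat_even (m := 0) ⟨0, rfl⟩

/-- clamped branch coordinate in `[0, N]` -/
def zc (a b : ℝ) (N : ℕ) (s : ℝ) : ℝ := N * (max a (min s b) - a) / (b - a)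

/-- the identity outside `[a, b]`, an `N`-fold zigzag on `[a, b]` (`N` odd) -/
def zig (a b : ℝ) (N : ℕ) (s : ℝ) : ℝ := s - max a (min s b) + a + (b - a) * tri (zc a b N s)

@[fun_prop] theorem continuous_zc (a b : ℝ) (N : ℕ) : Continuous (zc a b N) := by
  unfold zc; fun_prop

@[fun_prop] theorem continuous_zig (a b : ℝ) (N : ℕ) : Continuous (zig a b N) := by
  unfold zig; fun_prop

section
variable {a b : ℝ} {N : ℕ} {s : ℝ}

theorem zc_of_le (h : s ≤ a) : zc a b N s = 0 := by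
  rw [zc, max_eq_left ((min_le_left _ _).trans h)]; simp

theorem zc_of_ge (hab : a < b) (h : b ≤ s) : zc a b N s = N := by
  rw [zc, min_eq_right h, max_eq_right hab.le]; field_simp [(sub_pos.2 hab).ne']

theorem zc_of_mem (h : s ∈ Icc a b) : zc a b N s = N * (s - a) / (b - a) := by
  rw [zc, min_eq_left h.2, max_eq_right h.1]

theorem zc_nonneg (hab : a < b) : 0 ≤ zc a b N s :=
  div_nonneg (mul_nonneg (Nat.cast_nonneg _) (sub_nonneg.2 (le_max_left _ _))) (sub_pos.2 hab).le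

theorem zc_le (hab : a < b) : zc a b N s ≤ N := by
  rw [zc, div_le_iff₀ (sub_pos.2 hab)]
  exact mul_le_mul_of_nonneg_left (sub_le_sub_right (max_le hab.le (min_le_right _ _)) _)
    (Nat.cast_nonneg _)

theorem zig_of_le (h : s ≤ a) : zig a b N s = s := by
  rw [zig, zc_of_le h, tri_zero, max_eq_left ((min_le_left _ _).trans h)]; ring

theorem zig_of_ge (hab : a < b) (hN : Odd N) (h : b ≤ s) : zig a b N s = s := by
  rw [zig, zc_of_ge hab h, tri_nat_odd hN, min_eq_right h, max_eq_right hab.le]; ring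

theorem zig_of_mem (h : s ∈ Icc a b) : zig a b N s = a + (b - a) * tri (zc a b N s) := by
  rw [zig, min_eq_left h.2, max_eq_right h.1]; ring

theorem zig_mem (h : s ∈ Icc a b) : zig a b N s ∈ Icc a b := by
  have h1 := tri_nonneg (zc a b N s)
  have h2 := tri_le_one (zc a b N s)
  have h3 : 0 ≤ b - a := by linarith [h.1, h.2]
  rw [zig_of_mem h]
  constructor <;> nlinarith
end

/-! ### constants -/

def uu (n : ℕ) : ℝ := (1 / 2) ^ (n + 2)
def ll (i : ℕ) : ℝ := -1 - (1 / 2) ^ i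
def RR (i : ℕ) : ℝ := 2 + uu i
def rr (j : ℕ) : ℝ := 1 / 4 - (1 / 2) ^ (j + 3)
/-- the point at fraction `c` of the left gap between `J i` and `J (i+1)` -/
def pL (i : ℕ) (c : ℝ) : ℝ := ll i + c * (1 / 2) ^ (i + 1)
/-- the point at fraction `c` of the right gap between `J i` and `J (i+1)` -/
def pR (i : ℕ) (c : ℝ) : ℝ := RR i - c * uu (i + 1)

theorem uu_pos (n : ℕ) : 0 < uu n := by unfold uu; positivity
theorem uu_succ (n : ℕ) : uu (n + 1) = uu n / 2 := by unfold uu; ring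
theorem uu_anti : Antitone uu := fun _ _ h =>
  pow_le_pow_of_le_one (by norm_num) (by norm_num) (by omega)
theorem uu_le (n : ℕ) : uu n ≤ 1 / 4 := (uu_anti (Nat.zero_le n)).trans_eq (by norm_num [uu])
theorem ll_lt (i : ℕ) : ll i < -1 := by unfold ll; linarith [show (0 : ℝ) < (1 / 2) ^ i by positivity]
theorem ll_mono : Monotone ll := fun _ _ h =>
  sub_le_sub_left (pow_le_pow_of_le_one (by norm_num) (by norm_num) h) _
theorem ll_zero : ll 0 = -2 := by norm_num [ll]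
theorem lt_RR (i : ℕ) : 2 < RR i := by unfold RR; linarith [uu_pos i]
theorem RR_anti : Antitone RR := fun _ _ h => add_le_add_right (uu_anti h) _
theorem ll_lt_RR (i j : ℕ) : ll i < RR j := by linarith [ll_lt i, lt_RR j]
theorem pL_one (i : ℕ) : pL i 1 = ll (i + 1) := by unfold pL ll; ring
theorem pR_one (i : ℕ) : pR i 1 = RR (i + 1) := by unfold pR RR; rw [uu_succ]; ring

/-- what is used about the oscillation of the first ray over the arc -/
structure QSpec (q : ℝ → ℝ) : Prop where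
  cont : ContinuousOn q (Ioi 0)
  mem : ∀ v, q v ∈ Icc (0 : ℝ) 1
  zero : ∀ n, q (uu n) = 0
  top : ∀ v, uu 0 ≤ v → q v = 0
  one : ∀ n, ∃ v ∈ Ioo (uu (n + 1)) (uu n), q v = 1
  crook : ∀ j, ∃ (U : ℝ → ℝ) (a₁ b₁ a₂ b₂ : ℝ), ContinuousOn U (Ioi 0) ∧
    a₁ ≤ b₁ ∧ b₁ < a₂ ∧ a₂ ≤ b₂ ∧ ∀ v ∈ Ioc 0 (uu j),
      (q v < rr j → U v ≤ a₁) ∧ (1 - rr j < q v → b₂ ≤ U v) ∧
      (U v = a₁ ∨ U v = a₂ → q v = rr j) ∧ (U v = b₁ ∨ U v = b₂ → q v = 1 - rr j)

/-- the even one of `m`, `m + 1` -/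
def lft (m : ℕ) : ℕ := if Even m then m else m + 1
/-- the odd one of `m`, `m + 1` -/
def rgt (m : ℕ) : ℕ := if Even m then m + 1 else m

/-- uncountably many pairwise incompatible `±1` walks -/
structure WSpec (W : (ℕ → Bool) → ℕ → ℤ) : Prop where
  zero : ∀ c, W c 0 = 0
  step : ∀ c m, W c (m + 1) = W c m + 1 ∨ W c (m + 1) = W c m - 1
  inc : ∀ c c', c ≠ c' → ∃ G, ∀ g ≤ G, W c G ≠ W c' g ∧ W c' G ≠ W c g

/-- the label of the `m`-th step of a walk -/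
def lab (w : ℕ → ℤ) (m : ℕ) : Bool := decide (w (rgt m) = w (lft m) + 1)

/-! ### the second ray -/

/-- position after `ℓ` zigzags starting at level `i` -/
def Xp (N : ℕ) : ℕ → ℕ → ℝ → ℝ
  | 0, _, s => s
  | ℓ + 1, i, s => Xp N ℓ (i + 1) (zig (ll (i + 1)) (RR (i + 1)) N s)

/-- the depth allowed on branch `m` of level `i` -/
def nxt (L : ℕ → ℕ → Bool) (i cap m : ℕ) : ℕ := if L i m then min cap (i + m + 1) else cap

/-- depth of the excursion round the loop -/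
def Dp (L : ℕ → ℕ → Bool) (N : ℕ) : ℕ → ℕ → ℕ → ℝ → ℕ
  | 0, _, cap, _ => cap
  | ℓ + 1, i, cap, s => Dp L N ℓ (i + 1) (nxt L i cap ⌊zc (ll (i + 1)) (RR (i + 1)) N s⌋₊)
      (zig (ll (i + 1)) (RR (i + 1)) N s)

theorem Xp_of_le (N ℓ i : ℕ) {s : ℝ} (h : s ≤ ll (i + 1)) : Xp N ℓ i s = s := by
  induction ℓ generalizing i with
  | zero => rfl
  | succ ℓ ih => rw [Xp, zig_of_le h]; exact ih _ (h.trans (ll_mono (Nat.le_succ _)))

theorem Xp_of_ge {N : ℕ} (hN : Odd N) (ℓ i : ℕ) {s : ℝ} (h : RR (i + 1) ≤ s) :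
    Xp N ℓ i s = s := by
  induction ℓ generalizing i with
  | zero => rfl
  | succ ℓ ih =>
    rw [Xp, zig_of_ge (ll_lt_RR _ _) hN h]; exact ih _ ((RR_anti (Nat.le_succ _)).trans h)

theorem Xp_mem {N : ℕ} (hN : Odd N) (ℓ i j : ℕ) (hj : j ≤ i + 1) {s : ℝ}
    (h : s ∈ Icc (ll j) (RR j)) : Xp N ℓ i s ∈ Icc (ll j) (RR j) := by
  induction ℓ generalizing i s with
  | zero => exact h
  | succ ℓ ih =>
    refine ih (i + 1) (by omega) ?_
    rcases le_total s (ll (i + 1)) with h1 | h1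
    · rwa [zig_of_le h1]
    rcases le_total (RR (i + 1)) s with h2 | h2
    · rwa [zig_of_ge (ll_lt_RR _ _) hN h2]
    exact Icc_subset_Icc (ll_mono hj) (RR_anti hj) (zig_mem ⟨h1, h2⟩)

theorem continuous_Xp (N ℓ i : ℕ) : Continuous (Xp N ℓ i) := by
  induction ℓ generalizing i with
  | zero => exact continuous_id
  | succ ℓ ih => exact (ih (i + 1)).comp (continuous_zig _ _ _)

theorem nxt_le (L : ℕ → ℕ → Bool) (i cap m : ℕ) : nxt L i cap m ≤ cap := by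
  unfold nxt; split_ifs; exacts [min_le_left _ _, le_rfl]

theorem Dp_le (L : ℕ → ℕ → Bool) (N ℓ i cap : ℕ) (s : ℝ) : Dp L N ℓ i cap s ≤ cap := by
  induction ℓ generalizing i cap s with
  | zero => exact le_rfl
  | succ ℓ ih => exact (ih _ _ _).trans (nxt_le _ _ _ _)

/-- winding coordinate on the excursion round the loop -/
def etaL (x : ℝ) (D : ℕ) : ℝ := -(1 - uu D) * max 0 (1 - |x - 1|)
/-- winding coordinate -/
def eta (x : ℝ) (D : ℕ) : ℝ := etaL x D + max (x - 2) 0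
/-- height on the whisker -/
def hh (x : ℝ) : ℝ := max (-1 - x) 0
/-- coordinate along the arc -/
def rho (ρL ρS : ℝ → ℝ) (x : ℝ) (D : ℕ) : ℝ :=
  max 0 (min (-x) 1) + ρL (1 + etaL x D) + ρS (max (x - 2) 0)

/-- the ambient space: winding, height, arc coordinate, two coordinates for the parameter -/
abbrev EE := UnitAddCircle × ℝ × ℝ × ℝ × ℝ

def PP (t : ℝ) : ℝ := t / (1 + t) ^ 4
def QQ (t : ℝ) : ℝ := t ^ 2 / (1 + t) ^ 4
def s0 (t : ℝ) : ℝ := ll 0 + (RR 0 - ll 0) * tri (2 * t)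
def xx (t : ℝ) : ℝ := Xp (2 * ⌊t⌋₊ + 1) ⌊t⌋₊ 0 (s0 t)
def DD (L : ℕ → ℕ → Bool) (t : ℝ) : ℕ := Dp L (2 * ⌊t⌋₊ + 1) ⌊t⌋₊ 0 ⌊t⌋₊ (s0 t)
def et (L : ℕ → ℕ → Bool) (t : ℝ) : ℝ := eta (xx t) (DD L t)

/-- the second ray -/
def gam (q : ℝ → ℝ) (L : ℕ → ℕ → Bool) (t : ℝ) : EE :=
  ((et L t : ℝ), hh (xx t) - PP t * max (xx t - 2) 0,
    rho q (fun v => q (max v (uu ⌊t⌋₊))) (xx t) (DD L t), PP t, QQ t)

/-- the Warsaw circle with a whisker -/
def W0 (q : ℝ → ℝ) : Set EE :=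
  {y | (∃ v ∈ Ioc (0 : ℝ) 1, y = ((v : UnitAddCircle), 0, q v, 0, 0)) ∨
    (∃ r ∈ Icc (0 : ℝ) 1, y = (0, 0, r, 0, 0)) ∨ ∃ h ∈ Icc (0 : ℝ) 1, y = (0, h, 1, 0, 0)}

/-- the curve -/
def YY (q : ℝ → ℝ) (L : ℕ → ℕ → Bool) : Set EE := closure (gam q L '' Ici 0)

/-- one pass over `J 0` -/
def pass (L : ℕ → ℕ → Bool) (N ℓ cap : ℕ) (ρL ρS : ℝ → ℝ) (s : ℝ) : UnitAddCircle × ℝ × ℝ :=
  ((eta (Xp N ℓ 0 s) (Dp L N ℓ 0 cap s) : ℝ), hh (Xp N ℓ 0 s),
    rho ρL ρS (Xp N ℓ 0 s) (Dp L N ℓ 0 cap s))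

/-- straightened end of the excursion in the `k`-th chain -/
def vL (q : ℝ → ℝ) (k : ℕ) (v : ℝ) : ℝ :=
  q (max v (uu k)) + max 0 (uu k - v) / (uu k - uu (k + 1))
/-- straightened bridge in the `k`-th chain -/
def vS (q : ℝ → ℝ) (k : ℕ) (v : ℝ) : ℝ := q (max v (uu k)) + tri (2 * min v (uu k) / uu k)

/-! ### maps of a space onto the curves -/

section
variable {X : Type}

/-- ray mode -/
def Ry (g : X → EE) (x : X) : Prop := 0 < (g x).2.2.2.1
/-- the parameter on the ray -/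
def TT (g : X → EE) (x : X) : ℝ := (g x).2.2.2.2 / (g x).2.2.2.1

/-- closed set containing the deep part of bounded depth -/
def Kset (g : X → EE) (d : ℕ) (θ : ℝ) : Set X :=
  {x | (g x).1 ∈ ((↑) : ℝ → UnitAddCircle) '' Icc (uu d) θ ∧ (g x).2.1 = 0}

/-- the arc coordinate is the function `q` of the winding coordinate -/
def Los (q : ℝ → ℝ) (g : X → EE) : Set X := {x | 0 < ‖(g x).1‖ ∧ (g x).2.2.1 = q ‖(g x).1‖}

variable [TopologicalSpace X]

/-- on `K` the map runs inside one branch of level `i` of segment `n` -/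
def Lev (L : ℕ → ℕ → Bool) (g : X → EE) (K : Set X) (i n cap : ℕ) (s : X → ℝ) : Prop :=
  i ≤ n ∧ cap ≤ n ∧ ContinuousOn s K ∧ ∀ x ∈ K, Ry g x ∧
    xx (TT g x) = Xp (2 * n + 1) (n - i) i (s x) ∧
    (xx (TT g x) ∈ Ioo (0 : ℝ) 2 → DD L (TT g x) = Dp L (2 * n + 1) (n - i) i cap (s x))

/-- arbitrarily deep traversals of level `i` with deep part in `F` -/
def Str (L : ℕ → ℕ → Bool) (g : X → EE) (𝒞 : Set (Set X)) (i : ℕ) (θ : ℝ) (F : Set X) : Prop :=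
  ∀ k : ℕ, ∃ (K : Set X) (n cap : ℕ) (s : X → ℝ), IsCompact K ∧ IsPreconnected K ∧
    (∃ C ∈ 𝒞, K ⊆ C) ∧ Lev L g K i n cap s ∧ k ≤ cap ∧ (∃ x ∈ K, s x ≤ pL i (3 / 4)) ∧
    (∃ x ∈ K, pR i (3 / 4) ≤ s x) ∧ ∀ x ∈ K, et L (TT g x) ≤ -1 + θ → x ∈ F

/-- `C` runs along the ray from a parameter `≤ T0` to a parameter `≥ T` -/
def FS1 (L : ℕ → ℕ → Bool) (g : X → EE) (T0 θ : ℝ) (F : Set X) (T : ℝ) (C : Set X) : Prop :=
  IsCompact C ∧ IsPreconnected C ∧ (∀ x ∈ C, Ry g x ∧ 1 ≤ TT g x) ∧ (∃ x ∈ C, TT g x ≤ T0) ∧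
    (∃ x ∈ C, T ≤ TT g x) ∧ ∀ x ∈ C, et L (TT g x) ≤ -1 + θ → x ∈ F

/-- continua running arbitrarily far along the ray -/
def FS (L : ℕ → ℕ → Bool) (g : X → EE) (T0 θ : ℝ) (F : Set X) : Prop :=
  ∀ T : ℕ, ∃ C, FS1 L g T0 θ F T C
end

/-- the `σ`-ideals of small sets of parameters -/
def Small (i : ℕ) (A : Set (ℕ → ℕ → Bool)) : Prop :=
  ∃ N : ℕ → Set (ℕ → Bool), (∀ j, (N j).Countable) ∧ ∀ α ∈ A, ∃ j, i ≤ j ∧ α j ∈ N j

end Pool.Agent.MP_d9472f_gt.Q2
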