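import Pool.Agent.MP_d9472f_gt.Q2.Basic

/-! Independent tools: the final contradiction in a rational continuum, the crooked function, the walks, the ideals, the winding lemma and a weak chainability criterion. -/

open Set Filter Topology

noncomputable section
namespace Pool.Agent.MP_d9472f_gt.Q2

theorem a1_rat {X : Type*} [TopologicalSpace X] [T2Space X] [CompactSpace X]
    (hX : ∀ p q : X, p ≠ q → ∃ C A B : Set X, C.Countable ∧ Cᶜ = A ∪ B ∧ Disjoint (closure A) B ∧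
      Disjoint A (closure B) ∧ p ∈ A ∧ q ∈ B) {P Q : Set X} (hP : IsClosed P) (hQ : IsClosed Q)
    (hPQ : Disjoint P Q) : ∃ C : Set X, C.Countable ∧ ∀ H : ℕ → Set X, (∀ j, IsClosed (H j)) →
      Antitone H → Disjoint (⋂ j, H j) C → ∃ j, ∀ S ⊆ H j, IsPreconnected S →
        (S ∩ P).Nonempty → (S ∩ Q).Nonempty → False := by
  have key : ∀ r : X × X, ∃ (C : Set X) (N : Set (X × X)), C.Countable ∧ (r ∈ P ×ˢ Q → N ∈ 𝓝 r) ∧
      ∀ H : ℕ → Set X, (∀ j, IsClosed (H j)) → Antitone H → Disjoint (⋂ j, H j) C →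
        ∀ᶠ j in atTop, ∀ S ⊆ H j, IsPreconnected S → ∀ p ∈ S, ∀ q ∈ S, (p, q) ∉ N := by
    rintro ⟨p, q⟩
    by_cases hr : (p, q) ∈ P ×ˢ Q
    swap
    · exact ⟨∅, ∅, countable_empty, fun h => absurd h hr, fun _ _ _ _ =>
        Eventually.of_forall fun _ _ _ _ _ _ _ _ => notMem_empty _⟩
    have hne : p ≠ q := fun h => disjoint_left.1 hPQ hr.1 (h ▸ hr.2)
    obtain ⟨C, A, B, hC, hAB, h1, h2, hp, hq⟩ := hX p q hne
    obtain ⟨U, V, hU, hV, hpU, hqV, hUV⟩ := t2_separation hne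
    obtain ⟨N1, n1, n2, n3⟩ := exists_mem_nhds_isClosed_subset (inter_mem (hU.mem_nhds hpU)
      (isClosed_closure.isOpen_compl.mem_nhds (disjoint_left.1 h2 hp)))
    obtain ⟨N2, m1, m2, m3⟩ := exists_mem_nhds_isClosed_subset (inter_mem (hV.mem_nhds hqV)
      (isClosed_closure.isOpen_compl.mem_nhds (disjoint_right.1 h1 hq)))
    refine ⟨C, N1 ×ˢ N2, hC, fun _ => prod_mem_nhds n1 m1, fun H hH hm hd => ?_⟩
    have hI : IsClosed (⋂ j, H j) := isClosed_iInter hH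
    have hsub : ∀ x ∈ ⋂ j, H j, x ∈ A ∨ x ∈ B := fun x hx => by
      have : x ∈ A ∪ B := hAB ▸ disjoint_left.1 hd hx
      exact this
    obtain ⟨U', V', hU', hV', h3, h4, h5⟩ := normal_separation
      ((hI.inter isClosed_closure).union n2) ((hI.inter isClosed_closure).union m2)
      (show Disjoint (((⋂ j, H j) ∩ closure A) ∪ N1) (((⋂ j, H j) ∩ closure B) ∪ N2) by
        rw [disjoint_left]
        rintro x (hx | hx) (hx' | hx')
        · rcases hsub x hx.1 with h | h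
          exacts [disjoint_left.1 h2 h hx'.2, disjoint_left.1 h1 hx.2 h]
        · exact (m3 hx').2 hx.2
        · exact (n3 hx).2 hx'.2
        · exact disjoint_left.1 hUV (n3 hx).1 (m3 hx').1)
    obtain ⟨j0, hj0⟩ := exists_subset_nhds_of_isCompact' hm.directed_ge
      (fun j => (hH j).isCompact) hH (U := U' ∪ V') fun x hx => (hU'.union hV').mem_nhds (by
        rcases hsub x hx with h | h
        exacts [Or.inl (h3 (Or.inl ⟨hx, subset_closure h⟩)), Or.inr (h4 (Or.inl ⟨hx, subset_closure h⟩))])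
    filter_upwards [eventually_ge_atTop j0] with j hj S hS hSc a ha b hb hab
    obtain ⟨x, -, hx⟩ := hSc U' V' hU' hV' (hS.trans ((hm hj).trans hj0)) ⟨a, ha, h3 (Or.inr hab.1)⟩
      ⟨b, hb, h4 (Or.inr hab.2)⟩
    exact disjoint_left.1 h5 hx.1 hx.2
  choose C N hC hN hH using key
  obtain ⟨t, -, ht⟩ := (hP.isCompact.prod hQ.isCompact).elim_nhds_subcover N hN
  refine ⟨⋃ r ∈ t, C r, t.countable_toSet.biUnion fun r _ => hC r, fun H h1 h2 h3 => ?_⟩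
  obtain ⟨j, hj⟩ := ((eventually_all_finset t).2 fun r hr =>
    hH r H h1 h2 (h3.mono_right (subset_biUnion_of_mem (u := C) hr))).exists
  refine ⟨j, fun S hS hSc ⟨p, hp⟩ ⟨q, hq⟩ => ?_⟩
  obtain ⟨r, hr, hr'⟩ := mem_iUnion₂.1 (ht (mk_mem_prod hp.2 hq.2))
  exact hj r hr S hS hSc p hp.1 q hq.1 hr'

theorem a1_core {X : Type*} [TopologicalSpace X] [T2Space X] {C P Q : Set X} (hC : C.Countable)
    (hrat : ∀ H : ℕ → Set X, (∀ J, IsClosed (H J)) → Antitone H → Disjoint (⋂ J, H J) C →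
      ∃ J, ∀ S ⊆ H J, IsPreconnected S → (S ∩ P).Nonempty → (S ∩ Q).Nonempty → False)
    {F : ℕ → Set X} (hF : ∀ j, IsClosed (F j)) {ρ U : ℕ → X → ℝ}
    (hU : ∀ j, ContinuousOn (U j) (F j)) {r s a₁ b₁ a₂ b₂ : ℕ → ℝ}
    (hab : ∀ j, a₁ j ≤ b₁ j ∧ b₁ j < a₂ j ∧ a₂ j ≤ b₂ j)
    (hlo : ∀ j, ∀ x ∈ F j, ρ j x < r j → U j x ≤ a₁ j)
    (hhi : ∀ j, ∀ x ∈ F j, s j < ρ j x → b₂ j ≤ U j x)
    (h0 : ∀ j, ∀ x ∈ F j, U j x = a₁ j ∨ U j x = a₂ j → ρ j x = r j)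
    (h1 : ∀ j, ∀ x ∈ F j, U j x = b₁ j ∨ U j x = b₂ j → ρ j x = s j)
    (hn0 : ∀ j x, ρ j x = r j → ρ (j + 1) x < r (j + 1))
    (hn1 : ∀ j x, ρ j x = s j → s (j + 1) < ρ (j + 1) x)
    (hP : ∀ j x, ρ j x = r j → x ∈ P) (hQ : ∀ j x, ρ j x = s j → x ∈ Q)
    (hE : ∀ J, ∃ E : Set X, IsCompact E ∧ IsPreconnected E ∧ (∀ j ≤ J, E ⊆ F j) ∧
      (∃ x ∈ E, ρ 0 x < r 0) ∧ ∃ x ∈ E, s 0 < ρ 0 x) : False := by
  classical
  obtain ⟨f, hf⟩ := Set.countable_iff_exists_injOn.1 hC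
  let c : ℕ → Prop := fun j => ∃ x ∈ C, f x = j ∧ U j x ≤ b₁ j
  let lo : ℕ → ℝ := fun j => if c j then a₂ j else a₁ j
  let hi : ℕ → ℝ := fun j => if c j then b₂ j else b₁ j
  have hlo' : ∀ j, (lo j = a₁ j ∧ hi j = b₁ j) ∨ (lo j = a₂ j ∧ hi j = b₂ j) := fun j => by
    simp only [lo, hi]; split_ifs <;> simp
  let H : ℕ → Set X := fun j => F j ∩ U j ⁻¹' Icc (lo j) (hi j)
  have hH : ∀ j, IsClosed (H j) := fun j =>
    (hU j).preimage_isClosed_of_isClosed (hF j) isClosed_Icc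
  let H' : ℕ → Set X := fun J => ⋂ j ∈ Iic J, H j
  have hH' : ∀ J, IsClosed (H' J) := fun J => isClosed_biInter fun j _ => hH j
  have hanti : Antitone H' := fun a b hab => biInter_subset_biInter_left (Iic_subset_Iic.2 hab)
  have hmiss : Disjoint (⋂ J, H' J) C := by
    refine Set.disjoint_left.2 fun x hh hx => ?_
    have h2 : x ∈ H (f x) := (mem_iInter₂.1 (mem_iInter.1 hh (f x))) (f x) (mem_Iic.2 le_rfl)
    obtain ⟨-, h3, h4⟩ := h2
    have h5 := hab (f x)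
    by_cases hc : U (f x) x ≤ b₁ (f x)
    · have : lo (f x) = a₂ (f x) := if_pos ⟨x, hx, rfl, hc⟩
      rw [this] at h3; linarith
    · have : hi (f x) = b₁ (f x) := if_neg (by
        rintro ⟨y, hy, h6, h7⟩
        rw [hf hy hx h6] at h7; exact hc h7)
      rw [this] at h4; exact hc h4
  obtain ⟨J, hJ⟩ := hrat H' hH' hanti hmiss
  obtain ⟨E, e1, e2, e3, e4, e5⟩ := hE J
  have cut : ∀ j ≤ J, ∀ D : Set X, IsCompact D → IsPreconnected D → D ⊆ E →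
      (∃ x ∈ D, ρ j x < r j) → (∃ x ∈ D, s j < ρ j x) →
      ∃ D' : Set X, IsCompact D' ∧ IsPreconnected D' ∧ D' ⊆ D ∧ D' ⊆ H j ∧
        (∃ x ∈ D', ρ j x = r j) ∧ ∃ x ∈ D', ρ j x = s j := by
    rintro j hj D d1 d2 d3 ⟨x, hx, hx'⟩ ⟨y, hy, hy'⟩
    have hDF : D ⊆ F j := d3.trans (e3 j hj)
    have h5 := hab j
    have hx2 := hlo j x (hDF hx) hx'
    have hy2 := hhi j y (hDF hy) hy'
    obtain ⟨D', g3, g1, g2, g4, ⟨p, hp, hp'⟩, q, hq, hq'⟩ := BB2 d1 d2 ((hU j).mono hDF)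
      (a := lo j) (b := hi j) (by rcases hlo' j with h | h <;> linarith only [h5, h]) hx
      (by rcases hlo' j with h | h <;> linarith only [hx2, h, h5]) hy
      (by rcases hlo' j with h | h <;> linarith only [h5, hy2, h])
    refine ⟨D', g1, g2, g3, fun z hz => ⟨hDF (g3 hz), g4 z hz⟩, ⟨p, hp, ?_⟩, q, hq, ?_⟩
    · exact h0 j p (hDF (g3 hp)) ((hlo' j).imp (fun h => hp'.trans h.1) fun h => hp'.trans h.1)
    · exact h1 j q (hDF (g3 hq)) ((hlo' j).imp (fun h => hq'.trans h.2) fun h => hq'.trans h.2)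
  have main : ∀ j ≤ J, ∃ D : Set X, IsCompact D ∧ IsPreconnected D ∧ D ⊆ E ∧ D ⊆ H' j ∧
      (∃ x ∈ D, ρ j x = r j) ∧ ∃ x ∈ D, ρ j x = s j := by
    intro j
    induction j with
    | zero =>
      intro hj
      obtain ⟨D, g1, g2, g3, g4, g5, g6⟩ := cut 0 hj E e1 e2 Subset.rfl e4 e5
      refine ⟨D, g1, g2, g3, subset_iInter₂ fun i hi => ?_, g5, g6⟩
      rw [Nat.le_zero.1 (mem_Iic.1 hi)]; exact g4
    | succ j ih =>
      intro hj
      obtain ⟨D, g1, g2, g3, g4, ⟨x, hx, hx'⟩, y, hy, hy'⟩ := ih (Nat.le_of_succ_le hj)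
      obtain ⟨D', k1, k2, k3, k4, k5, k6⟩ := cut (j + 1) hj D g1 g2 g3 ⟨x, hx, hn0 j x hx'⟩
        ⟨y, hy, hn1 j y hy'⟩
      refine ⟨D', k1, k2, k3.trans g3, subset_iInter₂ fun i hi => ?_, k5, k6⟩
      rcases (mem_Iic.1 hi).eq_or_lt with h | h
      · rw [h]; exact k4
      · exact k3.trans (g4.trans (biInter_subset_of_mem (mem_Iic.2 (Nat.lt_succ_iff.1 h))))
  obtain ⟨D, -, g2, -, g4, ⟨x, hx, hx'⟩, y, hy, hy'⟩ := main J le_rfl
  exact hJ D g4 g2 ⟨x, hx, hP J x hx'⟩ ⟨y, hy, hQ J y hy'⟩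

theorem FIN {X : Type} [MetricSpace X] (hX : IsRationalCurve X) {q : ℝ → ℝ} (hq : QSpec q)
    {Ω : Type} (a ρ : Ω → X → ℝ) (ha : ∀ α, Continuous (a α)) (hρ : ∀ α, Continuous (ρ α))
    (Good : ℕ → Set Ω → Set X → Prop)
    (step : ∀ j A F, Good j A F → ∀ δ : ℝ, 0 < δ → ∃ β ∈ A, ∃ A' ⊆ A, ∃ F' ⊆ F, IsClosed F' ∧
      Good (j + 1) A' F' ∧ (∀ x ∈ F', 0 < a β x ∧ ρ β x = q (a β x)) ∧
      ∀ α ∈ A', ∀ x, |a α x - a β x| ≤ δ ∧ |ρ α x - ρ β x| ≤ δ)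
    (big : ∀ j A F, Good j A F → ∀ ε : ℝ, 0 < ε → ∃ α ∈ A, ∃ E ⊆ F, IsCompact E ∧
      IsPreconnected E ∧ (∀ x ∈ E, a α x ≤ ε) ∧ (∃ x ∈ E, ρ α x ≤ 0) ∧ ∃ x ∈ E, 1 ≤ ρ α x)
    {A : Set Ω} {F : Set X} (h0 : Good 0 A F) : False := by
  have : CompactSpace X := hX.1.1
  let δ : ℕ → ℝ := fun j => (1 / 2) ^ (j + 5)
  have hδ : ∀ j, 0 < δ j := fun j => by positivity
  have d1 : ∀ j, δ j ≤ uu j / 2 := fun j => by
    have : (0 : ℝ) < (1 / 2) ^ j := by positivity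
    simp only [δ, uu, pow_add]; linarith
  have d2 : ∀ j, δ j < rr (j + 1) - rr j := fun j => by
    have : (0 : ℝ) < (1 / 2) ^ j := by positivity
    simp only [δ, rr, pow_add]; linarith
  have d3 : δ 0 < rr 0 := by norm_num [δ, rr]
  have d4 : δ 0 ≤ 1 / 12 := by norm_num [δ]
  have hr4 : ∀ j, rr j ≤ 1 / 4 := fun j => by
    have : (0 : ℝ) < (1 / 2) ^ (j + 3) := by positivity
    unfold rr; linarith
  let T : ℕ → Type := fun j => {p : Set Ω × Set X // Good j p.1 p.2}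
  have st : ∀ j (p : T j), ∃ p' : T (j + 1), ∃ β ∈ p.1.1, p'.1.1 ⊆ p.1.1 ∧ p'.1.2 ⊆ p.1.2 ∧
      IsClosed p'.1.2 ∧ (∀ x ∈ p'.1.2, 0 < a β x ∧ ρ β x = q (a β x)) ∧
      ∀ α ∈ p'.1.1, ∀ x, |a α x - a β x| ≤ δ j ∧ |ρ α x - ρ β x| ≤ δ j := by
    intro j p
    obtain ⟨β, hβ, A', h1, F', h2, h3, h5, h4, h6⟩ := step _ _ _ p.2 (δ j) (hδ j)
    exact ⟨⟨(A', F'), h5⟩, β, hβ, h1, h2, h3, h4, h6⟩
  choose nx β hβ hA hF hcl hq1 hclose using st
  let p : ∀ j, T j := fun j => Nat.rec ⟨(A, F), h0⟩ (fun j p => nx j p) j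
  let A : ℕ → Set Ω := fun j => (p j).1.1
  let F : ℕ → Set X := fun j => (p j).1.2
  let b : ℕ → Ω := fun j => β j (p j)
  have hA' : Antitone A := antitone_nat_of_succ_le fun j => hA j (p j)
  have hF' : Antitone F := antitone_nat_of_succ_le fun j => hF j (p j)
  have hb : ∀ j, b j ∈ A j := fun j => hβ j (p j)
  have hcl' : ∀ j, IsClosed (F (j + 1)) := fun j => hcl j (p j)
  have hq' : ∀ j, ∀ x ∈ F (j + 1), 0 < a (b j) x ∧ ρ (b j) x = q (a (b j) x) :=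
    fun j => hq1 j (p j)
  have hc' : ∀ j, ∀ α ∈ A (j + 1), ∀ x,
      |a α x - a (b j) x| ≤ δ j ∧ |ρ α x - ρ (b j) x| ≤ δ j := fun j => hclose j (p j)
  have hb0 : ∀ j x, |ρ (b j) x - ρ (b 0) x| ≤ 1 / 12 := by
    intro j x
    rcases Nat.eq_zero_or_pos j with rfl | hj
    · simp
    · exact (hc' 0 (b j) (hA' hj (hb j)) x).2.trans d4
  obtain ⟨C, hC, hC'⟩ := a1_rat (X := X) (fun p q h => by
      obtain ⟨C, A, B, h1, -, -, h2⟩ := hX.2.2 p q h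
      exact ⟨C, A, B, h1, h2⟩)
    (P := {x | ρ (b 0) x ≤ 1 / 3}) (Q := {x | 2 / 3 ≤ ρ (b 0) x})
    (isClosed_le (hρ _) continuous_const) (isClosed_le continuous_const (hρ _))
    (Set.disjoint_left.2 fun x h h' => by
      have h1 : ρ (b 0) x ≤ 1 / 3 := h
      have h2 : 2 / 3 ≤ ρ (b 0) x := h'
      linarith only [h1, h2])
  choose U a₁ b₁ a₂ b₂ hU k1 k2 k3 hk using hq.crook
  refine a1_core hC hC' (F := fun j => F (j + 1) ∩ {x | a (b j) x ≤ uu j})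
    (ρ := fun j => ρ (b j)) (U := fun j x => U j (a (b j) x)) (r := rr) (s := fun j => 1 - rr j)
    (fun j => (hcl' j).inter (isClosed_le (ha _) continuous_const))
    (fun j => (hU j).comp (ha _).continuousOn fun x hx => (hq' j x hx.1).1)
    (fun j => ⟨k1 j, k2 j, k3 j⟩)
    (fun j x hx h => (hk j _ ⟨(hq' j x hx.1).1, hx.2⟩).1 ((hq' j x hx.1).2 ▸ h))
    (fun j x hx h => (hk j _ ⟨(hq' j x hx.1).1, hx.2⟩).2.1 ((hq' j x hx.1).2 ▸ h))
    (fun j x hx h => (hq' j x hx.1).2.trans ((hk j _ ⟨(hq' j x hx.1).1, hx.2⟩).2.2.1 h))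
    (fun j x hx h => (hq' j x hx.1).2.trans ((hk j _ ⟨(hq' j x hx.1).1, hx.2⟩).2.2.2 h))
    (fun j x h => ?_) (fun j x h => ?_) (fun j x h => ?_) (fun j x h => ?_) fun J => ?_
  · have := abs_le.1 (hc' j _ (hb (j + 1)) x).2
    have := d2 j
    linarith
  · have := abs_le.1 (hc' j _ (hb (j + 1)) x).2
    have := d2 j
    linarith
  · have := abs_le.1 (hb0 j x)
    have := hr4 j
    show ρ (b 0) x ≤ 1 / 3
    linarith
  · have := abs_le.1 (hb0 j x)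
    have := hr4 j
    show 2 / 3 ≤ ρ (b 0) x
    linarith
  · obtain ⟨α, hα, E, e1, e2, e3, e4, ⟨x, hx, hx'⟩, y, hy, hy'⟩ :=
      big _ _ _ (p (J + 1)).2 (uu J / 2) (half_pos (uu_pos J))
    have hαj : ∀ j ≤ J, α ∈ A (j + 1) := fun j hj => hA' (Nat.succ_le_succ hj) hα
    refine ⟨E, e2, e3, fun j hj z hz => ⟨hF' (Nat.succ_le_succ hj) (e1 hz), ?_⟩,
      ⟨x, hx, ?_⟩, y, hy, ?_⟩
    · have := abs_le.1 (hc' j α (hαj j hj) z).1
      have := d1 j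
      have := uu_anti hj
      have := e4 z hz
      show a (b j) z ≤ uu j
      linarith
    · have := abs_le.1 (hc' 0 α (hαj 0 (Nat.zero_le _)) x).2
      linarith
    · have := abs_le.1 (hc' 0 α (hαj 0 (Nat.zero_le _)) y).2
      linarith

def a2_T (j : ℕ) : ℝ → ℝ := zig (rr j) (1 - rr j) 3

def a2_c : ℕ → ℝ → ℝ
  | 0, s => s
  | n + 1, s => a2_T n (a2_c n s)

def a2_z (v : ℝ) : ℝ := max 0 (-Real.logb 2 v - 2)

def a2_q (v : ℝ) : ℝ := if 0 < v then a2_c (⌊a2_z v⌋₊ + 1) (tri (2 * a2_z v)) else 0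

theorem a2_mono : Monotone rr := fun _ _ h =>
  sub_le_sub_left (pow_le_pow_of_le_one (by norm_num) (by norm_num) (by omega)) _

theorem a2_pos (j : ℕ) : 0 < rr j := lt_of_lt_of_le (by norm_num [rr]) (a2_mono (Nat.zero_le j))

theorem a2_lt (j : ℕ) : rr j < 1 / 4 := by
  unfold rr; linarith [show (0 : ℝ) < (1 / 2) ^ (j + 3) by positivity]

theorem a2_le {j : ℕ} {s : ℝ} (h : s ≤ rr j) : a2_T j s = s := zig_of_le h

theorem a2_ge {j : ℕ} {s : ℝ} (h : 1 - rr j ≤ s) : a2_T j s = s :=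
  zig_of_ge (by linarith [a2_lt j]) ⟨1, rfl⟩ h

theorem a2_mem {j : ℕ} {r s : ℝ} (hr : r ≤ rr j) (h : s ∈ Icc r (1 - r)) :
    a2_T j s ∈ Icc r (1 - r) := by
  rcases le_total s (rr j) with h1 | h1
  · rwa [a2_le h1]
  rcases le_total (1 - rr j) s with h2 | h2
  · rwa [a2_ge h2]
  exact Icc_subset_Icc hr (by linarith) (zig_mem ⟨h1, h2⟩)

theorem a2_c0 (n : ℕ) : a2_c n 0 = 0 := by
  induction n with
  | zero => rfl
  | succ n ih => rw [a2_c, ih, a2_le (a2_pos n).le]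

theorem a2_c1 (n : ℕ) : a2_c n 1 = 1 := by
  induction n with
  | zero => rfl
  | succ n ih => rw [a2_c, ih, a2_ge (by linarith [a2_pos n])]

theorem a2_cmem (n : ℕ) {s : ℝ} (h : s ∈ Icc (0 : ℝ) 1) : a2_c n s ∈ Icc (0 : ℝ) 1 := by
  induction n with
  | zero => exact h
  | succ n ih => simpa only [a2_c, mem_Icc, sub_zero] using a2_mem (r := 0) (a2_pos n).le (by simpa only [sub_zero, mem_Icc] using ih)

theorem a2_cont (n : ℕ) : Continuous (a2_c n) := by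
  induction n with
  | zero => exact continuous_id
  | succ n ih => exact (continuous_zig _ _ _).comp ih

theorem a2_zcont : ContinuousOn a2_z (Ioi 0) := fun _ hv =>
  ContinuousAt.continuousWithinAt (Tendsto.max tendsto_const_nhds
    ((Real.continuousAt_logb (ne_of_gt hv)).neg.sub continuousAt_const))

theorem a2_uu (n : ℕ) : uu n = (2 : ℝ) ^ (-((n : ℝ) + 2)) := by
  rw [Real.rpow_neg (by norm_num), uu, one_div, inv_pow]
  norm_cast

theorem a2_zpow {x : ℝ} (hx : 0 ≤ x) : a2_z ((2 : ℝ) ^ (-(x + 2))) = x := by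
  rw [a2_z, Real.logb_rpow (by norm_num) (by norm_num), max_eq_right (by linarith)]
  ring

theorem a2_tri (n : ℕ) : tri (2 * (n : ℝ)) = 0 := by
  simpa using tri_nat_even (m := 2 * n) (even_two_mul n)

theorem a2_key {j m : ℕ} (h : j ≤ m) (s : ℝ) :
    (a2_c (j + 1) s ≤ rr j ∨ 1 - rr j ≤ a2_c (j + 1) s → a2_c (m + 1) s = a2_c (j + 1) s) ∧
      (a2_c (j + 1) s ∈ Icc (rr j) (1 - rr j) → a2_c (m + 1) s ∈ Icc (rr j) (1 - rr j)) := by
  induction m, h using Nat.le_induction with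
  | base => exact ⟨fun _ => rfl, id⟩
  | succ m h ih =>
    have h1 : rr j ≤ rr (m + 1) := a2_mono (by omega)
    refine ⟨fun h2 => ?_, fun h2 => a2_mem h1 (ih.2 h2)⟩
    rw [a2_c, ih.1 h2]
    rcases h2 with h2 | h2
    exacts [a2_le (h2.trans h1), a2_ge (by linarith only [h1, h2])]

theorem exists_q : ∃ q, QSpec q := by
  have hU : ∀ n, ContinuousOn (fun v => a2_c n (tri (2 * a2_z v))) (Ioi 0) := fun n =>
    ((a2_cont n).comp continuous_tri).comp_continuousOn (continuousOn_const.mul a2_zcont)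
  refine ⟨a2_q, ?_, fun v => ?_, fun n => ?_, fun v hv => ?_, fun n => ?_, fun j => ?_⟩
  · refine (glue a2_zcont (fun _ _ => le_max_left _ _)
      (F := fun m v => a2_c (m + 1) (tri (2 * a2_z v))) (fun m => (hU _).mono fun _ h => h.1)
      fun m v _ h => ?_).congr fun v hv => if_pos hv
    simp only [h, a2_tri, a2_c0]
  · unfold a2_q
    split_ifs
    exacts [a2_cmem _ ⟨tri_nonneg _, tri_le_one _⟩, ⟨le_rfl, zero_le_one⟩]
  · rw [a2_q, if_pos (uu_pos n), a2_uu, a2_zpow (Nat.cast_nonneg n), a2_tri, a2_c0]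
  · have h1 : Real.logb 2 (uu 0) ≤ Real.logb 2 v :=
      Real.logb_le_logb_of_le (by norm_num) (uu_pos 0) hv
    rw [a2_uu, Real.logb_rpow (by norm_num) (by norm_num)] at h1
    have h2 : a2_z v = 0 := max_eq_left (by push_cast at h1; linarith)
    rw [a2_q, if_pos ((uu_pos 0).trans_le hv), h2, mul_zero, tri_zero, a2_c0]
  · refine ⟨(2 : ℝ) ^ (-((n : ℝ) + 1 / 2 + 2)), ⟨?_, ?_⟩, ?_⟩
    · rw [a2_uu]
      exact Real.rpow_lt_rpow_of_exponent_lt (by norm_num) (by push_cast; linarith)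
    · rw [a2_uu]
      exact Real.rpow_lt_rpow_of_exponent_lt (by norm_num) (by linarith)
    · have h1 : tri (2 * ((n : ℝ) + 1 / 2)) = 1 := by
        convert tri_nat_odd (m := 2 * n + 1) ⟨n, rfl⟩ using 2
        push_cast; ring
      rw [a2_q, if_pos (by positivity), a2_zpow (by positivity), h1, a2_c1]
  · have h0 := a2_lt j
    have h0' : (1 - rr j - rr j) ≠ 0 := by linarith
    refine ⟨_, rr j, rr j + (1 - 2 * rr j) / 3, rr j + 2 * (1 - 2 * rr j) / 3, 1 - rr j, hU j,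
      by linarith, by linarith, by linarith, fun v hv => ?_⟩
    have h1 : Real.logb 2 v ≤ Real.logb 2 (uu j) := Real.logb_le_logb_of_le (by norm_num) hv.1 hv.2
    rw [a2_uu, Real.logb_rpow (by norm_num) (by norm_num)] at h1
    have hj : j ≤ ⌊a2_z v⌋₊ := Nat.le_floor (le_max_of_le_right (by linarith))
    obtain ⟨k1, k2⟩ := a2_key hj (tri (2 * a2_z v))
    rw [a2_q, if_pos hv.1]
    generalize a2_c (⌊a2_z v⌋₊ + 1) (tri (2 * a2_z v)) = w at *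
    rw [a2_c] at k1 k2
    generalize a2_c j (tri (2 * a2_z v)) = u at *
    refine ⟨fun h => ?_, fun h => ?_, ?_, ?_⟩
    · by_contra h2
      rcases le_total u (1 - rr j) with h3 | h3
      · linarith only [(k2 (a2_mem le_rfl ⟨(not_le.1 h2).le, h3⟩)).1, h]
      · rw [a2_ge h3] at k1
        linarith only [k1 (Or.inr h3), h, h2]
    · by_contra h2
      rcases le_total (rr j) u with h3 | h3
      · linarith only [(k2 (a2_mem le_rfl ⟨h3, (not_le.1 h2).le⟩)).2, h]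
      · rw [a2_le h3] at k1
        linarith only [k1 (Or.inl h3), h, h2]
    · have h2 : a2_T j (rr j + 2 * (1 - 2 * rr j) / 3) = rr j := by
        have hm : rr j + 2 * (1 - 2 * rr j) / 3 ∈ Icc (rr j) (1 - rr j) := ⟨by linarith, by linarith⟩
        have := a2_tri 1
        rw [a2_T, zig_of_mem hm, zc_of_mem hm, show ((3 : ℕ) : ℝ) *
          (rr j + 2 * (1 - 2 * rr j) / 3 - rr j) / (1 - rr j - rr j) = 2 * ((1 : ℕ) : ℝ) by
            rw [div_eq_iff h0']; push_cast; ring, this]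
        ring
      rintro (rfl | rfl)
      · rw [a2_le le_rfl] at k1; exact k1 (Or.inl le_rfl)
      · rw [h2] at k1; exact k1 (Or.inl le_rfl)
    · have h2 : a2_T j (rr j + (1 - 2 * rr j) / 3) = 1 - rr j := by
        have hm : rr j + (1 - 2 * rr j) / 3 ∈ Icc (rr j) (1 - rr j) := ⟨by linarith only [h0], by linarith⟩
        rw [a2_T, zig_of_mem hm, zc_of_mem hm, show ((3 : ℕ) : ℝ) *
          (rr j + (1 - 2 * rr j) / 3 - rr j) / (1 - rr j - rr j) = ((1 : ℕ) : ℝ) by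
            rw [div_eq_iff h0']; push_cast; ring, tri_nat_odd odd_one]
        ring
      rintro (rfl | rfl)
      · rw [h2] at k1; exact k1 (Or.inr le_rfl)
      · rw [a2_ge le_rfl] at k1; exact k1 (Or.inr le_rfl)

theorem not_small_univ : ¬ Small 0 univ := by
  rintro ⟨N, h1, h2⟩
  have : ∀ j, ∃ c, c ∉ N j := fun j => by
    by_contra hh
    push Not at hh
    have h3 : (univ : Set (ℕ → Bool)).Countable := (eq_univ_of_forall hh) ▸ h1 j
    obtain ⟨f, hf⟩ := h3.exists_eq_range univ_nonempty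
    obtain ⟨n, hn⟩ : (fun n => !f n n) ∈ range f := hf ▸ mem_univ _
    simpa using congrFun hn n
  choose c hc using this
  obtain ⟨j, -, hj⟩ := h2 c (mem_univ _)
  exact hc j hj

theorem Small.iUnion {i : ℕ} {κ : Type} [Countable κ] {A : κ → Set (ℕ → ℕ → Bool)}
    (h : ∀ k, Small i (A k)) : Small i (⋃ k, A k) := by
  choose N h1 h2 using h
  refine ⟨fun j => ⋃ k, N k j, fun j => countable_iUnion fun k => h1 k j, fun α hα => ?_⟩
  obtain ⟨k, hk⟩ := mem_iUnion.1 hα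
  obtain ⟨j, hj, hj'⟩ := h2 k α hk
  exact ⟨j, hj, mem_iUnion.2 ⟨k, hj'⟩⟩

theorem Small.mono {i j : ℕ} {A B : Set (ℕ → ℕ → Bool)} (h : Small j B) (hij : i ≤ j)
    (hAB : A ⊆ B) : Small i A := by
  obtain ⟨N, h1, h2⟩ := h
  refine ⟨N, h1, fun α hα => ?_⟩
  obtain ⟨k, hk, hk'⟩ := h2 α (hAB hα)
  exact ⟨k, hij.trans hk, hk'⟩

theorem exists_ne_of_not_small {i : ℕ} {A : Set (ℕ → ℕ → Bool)} (h : ¬ Small i A) :
    ∃ α ∈ A, ∃ β ∈ A, α i ≠ β i := by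
  by_contra hh
  push Not at hh
  rcases A.eq_empty_or_nonempty with rfl | ⟨β, hβ⟩
  · exact h ⟨fun _ => ∅, fun _ => countable_empty, fun _ h => h.elim⟩
  · exact h ⟨fun _ => {β i}, fun _ => countable_singleton _,
      fun α hα => ⟨i, le_rfl, hh α hα β hβ⟩⟩

theorem CLS {X : Type} [MetricSpace X] [CompactSpace X] (g : (ℕ → ℕ → Bool) → X → EE)
    (hg : ∀ α, Continuous (g α)) {i : ℕ} {A : Set (ℕ → ℕ → Bool)} (h : ¬ Small i A) {δ : ℝ}
    (hδ : 0 < δ) : ∃ A' ⊆ A, ¬ Small i A' ∧ ∀ α ∈ A', ∀ β ∈ A', ∀ x, dist (g α x) (g β x) < δ := by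
  let G : (ℕ → ℕ → Bool) → C(X, EE) := fun α => ⟨g α, hg α⟩
  obtain ⟨s, hs, hd⟩ := TopologicalSpace.exists_countable_dense C(X, EE)
  have := hs.to_subtype
  by_contra hh
  push Not at hh
  refine h ((Small.iUnion (A := fun m : s => {α ∈ A | dist (G α) m < δ / 2})
    fun m => ?_).mono le_rfl ?_)
  · by_contra hm
    obtain ⟨α, hα, β, hβ, x, hab⟩ := hh _ (sep_subset _ _) hm
    have h1 := dist_triangle_right (G α) (G β) m
    have h2 : dist (g α x) (g β x) ≤ dist (G α) (G β) :=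
      ContinuousMap.dist_apply_le_dist (f := G α) (g := G β) x
    linarith [hα.2, hβ.2]
  · intro α hα
    obtain ⟨m, hm, hm'⟩ := hd.exists_dist_lt (G α) (half_pos hδ)
    exact mem_iUnion.2 ⟨⟨m, hm⟩, hα, hm'⟩

theorem BS (X : Type) [MetricSpace X] [CompactSpace X] : ∃ B : ℕ → Set X, (∀ n, IsClosed (B n)) ∧
    ∀ K G : Set X, IsClosed K → IsOpen G → K ⊆ G → ∃ n, K ⊆ B n ∧ B n ⊆ G := by
  obtain ⟨b, hb, -, hbasis⟩ := TopologicalSpace.exists_countable_basis X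
  have hcount : {t : Set (Set X) | t.Finite ∧ t ⊆ b}.Countable := countable_ofPred_finite_subset hb
  obtain ⟨f, hf⟩ := hcount.exists_eq_range ⟨∅, finite_empty, empty_subset _⟩
  refine ⟨fun n => closure (⋃₀ f n), fun n => isClosed_closure, fun K G hK hG hKG => ?_⟩
  obtain ⟨V, hV, hKV, hVG⟩ := normal_exists_closure_subset hK hG hKG
  have h1 : ∀ x : K, ∃ o ∈ b, (x : X) ∈ o ∧ o ⊆ V := fun x =>
    hbasis.exists_subset_of_mem_open (hKV x.2) hV
  choose o ho hxo hoV using h1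
  obtain ⟨t, ht⟩ := hK.isCompact.elim_finite_subcover o (fun x => hbasis.isOpen (ho x))
    fun x hx => mem_iUnion.2 ⟨⟨x, hx⟩, hxo _⟩
  have hmem : o '' t ∈ range f := hf ▸ ⟨t.finite_toSet.image o, by
    rintro _ ⟨x, -, rfl⟩; exact ho x⟩
  obtain ⟨n, hn⟩ := hmem
  refine ⟨n, fun x hx => subset_closure ?_, (closure_mono ?_).trans hVG⟩
  · obtain ⟨y, hy, hxy⟩ := mem_iUnion₂.1 (ht hx)
    rw [hn]
    exact ⟨o y, ⟨y, hy, rfl⟩, hxy⟩
  · rw [hn]
    rintro x ⟨_, ⟨y, -, rfl⟩, hx⟩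
    exact hoV y hx

/-- sign -/
def a3_sg (b : Bool) : ℤ := if b then 1 else -1

/-- the walk -/
def a3_W (c : ℕ → Bool) (m : ℕ) : ℤ :=
  if (m : ℤ) - Nat.sqrt m * Nat.sqrt m - Nat.sqrt m ≤ 0 then
    a3_sg (c (Nat.sqrt m - 1)) * -((m : ℤ) - Nat.sqrt m * Nat.sqrt m - Nat.sqrt m)
  else a3_sg (c (Nat.sqrt m)) * ((m : ℤ) - Nat.sqrt m * Nat.sqrt m - Nat.sqrt m)

theorem a3_sg_cases (b : Bool) : a3_sg b = 1 ∨ a3_sg b = -1 := by cases b <;> simp [a3_sg]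

theorem a3_bounds (m : ℕ) : (Nat.sqrt m : ℤ) * Nat.sqrt m ≤ m ∧
    (m : ℤ) ≤ Nat.sqrt m * Nat.sqrt m + 2 * Nat.sqrt m := by
  have h1 := Nat.sqrt_le m
  have h2 := Nat.lt_succ_sqrt m
  constructor
  · exact_mod_cast h1
  · have h3 : (m : ℤ) < (Nat.sqrt m + 1) * (Nat.sqrt m + 1) := by exact_mod_cast h2
    linarith only [h2]

theorem a3_sq (c : ℕ → Bool) (k : ℕ) : a3_W c ((k + 1) * (k + 1)) = a3_sg (c k) * (k + 1) := by
  unfold a3_W
  rw [Nat.sqrt_eq, if_pos (by push_cast; linarith [Int.natCast_nonneg k])]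
  push_cast
  ring

theorem a3_abs (c : ℕ → Bool) (m : ℕ) :
    -(Nat.sqrt m : ℤ) ≤ a3_W c m ∧ a3_W c m ≤ Nat.sqrt m := by
  obtain ⟨h1, h2⟩ := a3_bounds m
  unfold a3_W
  split_ifs with h
  · rcases a3_sg_cases (c (Nat.sqrt m - 1)) with e | e <;> rw [e] <;> constructor <;> linarith only [h2, h1]
  · rcases a3_sg_cases (c (Nat.sqrt m)) with e | e <;> rw [e] <;> constructor <;> linarith

theorem exists_W : ∃ W, WSpec W := by
  refine ⟨a3_W, fun c => by simp [a3_W], fun c m => ?_, fun c c' h => ?_⟩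
  · obtain ⟨h1, h2⟩ := a3_bounds m
    rcases h2.eq_or_lt with h3 | h3
    · have e : m + 1 = (Nat.sqrt m + 1) * (Nat.sqrt m + 1) := by
        have : ((m + 1 : ℕ) : ℤ) = ((Nat.sqrt m + 1) * (Nat.sqrt m + 1) : ℕ) := by
          push_cast; linarith only [h3]
        exact_mod_cast this
      have e2 : a3_W c m = a3_sg (c (Nat.sqrt m)) * Nat.sqrt m := by
        unfold a3_W
        split_ifs with h
        · have h0 : (Nat.sqrt m : ℤ) = 0 := by linarith only [h3, h]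
          have h5 : (m : ℤ) - Nat.sqrt m * Nat.sqrt m - Nat.sqrt m = 0 := by linarith only [h3, h]
          rw [h5, h0]; simp
        · congr 1; linarith only [h3]
      rw [e, a3_sq, e2]
      rcases a3_sg_cases (c (Nat.sqrt m)) with e | e <;> rw [e]
      · left; ring
      · right; ring
    · have e : Nat.sqrt (m + 1) = Nat.sqrt m := by
        symm
        rw [Nat.eq_sqrt]
        refine ⟨(Nat.sqrt_le m).trans (Nat.le_succ m), ?_⟩
        have : ((m + 1 : ℕ) : ℤ) < ((Nat.sqrt m + 1) * (Nat.sqrt m + 1) : ℕ) := by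
          push_cast; linarith
        exact_mod_cast this
      unfold a3_W
      rw [e]
      push_cast
      split_ifs with a b b
      · rcases a3_sg_cases (c (Nat.sqrt m - 1)) with e | e <;> rw [e]
        · right; ring
        · left; ring
      · exfalso; linarith only [a, b]
      · have h5 : (m : ℤ) - Nat.sqrt m * Nat.sqrt m - Nat.sqrt m = 0 := by omega
        have h6 : (m : ℤ) + 1 - Nat.sqrt m * Nat.sqrt m - Nat.sqrt m = 1 := by linarith only [a, b]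
        rw [h5, h6]
        rcases a3_sg_cases (c (Nat.sqrt m)) with e | e <;> rw [e] <;> simp
      · rcases a3_sg_cases (c (Nat.sqrt m)) with e | e <;> rw [e]
        · left; ring
        · right; ring
  · obtain ⟨k, hk⟩ := Function.ne_iff.1 h
    have key : ∀ d d' : ℕ → Bool, d k ≠ d' k → ∀ g ≤ (k + 1) * (k + 1),
        a3_W d ((k + 1) * (k + 1)) ≠ a3_W d' g := by
      intro d d' hd g hg
      have hk0 := Int.natCast_nonneg k
      rw [a3_sq]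
      rcases hg.eq_or_lt with rfl | hg
      · rw [a3_sq]
        revert hd
        cases d k <;> cases d' k <;> simp [a3_sg] <;> omega
      · have h1 : (Nat.sqrt g : ℤ) < (k + 1 : ℕ) := by exact_mod_cast Nat.sqrt_lt.2 hg
        push_cast at h1
        obtain ⟨h2, h3⟩ := a3_abs d' g
        rcases a3_sg_cases (d k) with e | e <;> rw [e] <;> omega
    exact ⟨(k + 1) * (k + 1), fun g hg => ⟨key c c' hk g hg, key c' c hk.symm g hg⟩⟩

/-- GLUE -/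
theorem a5_glue {X Y : Type*} [TopologicalSpace X] [TopologicalSpace Y] {K : Set X} {z : X → ℝ} (hz : ContinuousOn z K)
    {F : ℤ → X → Y} (hF : ∀ m : ℤ, ContinuousOn (F m) (K ∩ z ⁻¹' Icc (m : ℝ) (m + 1)))
    (h : ∀ x ∈ K, ∀ m : ℤ, z x = m → F m x = F (m - 1) x) :
    ContinuousOn (fun x => F ⌊z x⌋ x) K := by
  have h1 : ∀ m : ℤ, ContinuousOn (fun x => F ⌊z x⌋ x) (K ∩ z ⁻¹' Icc (m : ℝ) (m + 1)) := fun m =>
    (hF m).congr fun x hx => by
      rcases hx.2.2.eq_or_lt with h2 | h2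
      · have h3 : z x = ((m + 1 : ℤ) : ℝ) := by rw [h2]; push_cast; rfl
        have h4 := h x hx.1 _ h3
        simp only [h3, Int.floor_intCast, h4, add_sub_cancel_right]
      · simp only [Int.floor_eq_iff.2 ⟨hx.2.1, h2⟩]
  intro x hx
  have hl := Int.floor_le (z x)
  have hu := Int.lt_floor_add_one (z x)
  rcases hl.eq_or_lt with hl' | hl'
  · refine ((h1 (⌊z x⌋ - 1) x ⟨hx, by push_cast; constructor <;> linarith⟩).union
      (h1 _ x ⟨hx, hl, hu.le⟩)).mono_of_mem_nhdsWithin ?_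
    filter_upwards [self_mem_nhdsWithin, hz x hx (Ioo_mem_nhds (a := (⌊z x⌋ : ℝ) - 1) (by linarith) hu)]
      with y hy hy'
    rcases le_total (z y) ⌊z x⌋ with h2 | h2
    · exact Or.inl ⟨hy, by push_cast; exact ⟨hy'.1.le, by linarith⟩⟩
    · exact Or.inr ⟨hy, h2, hy'.2.le⟩
  · refine (h1 _ x ⟨hx, hl, hu.le⟩).mono_of_mem_nhdsWithin ?_
    filter_upwards [self_mem_nhdsWithin, hz x hx (Ioo_mem_nhds hl' hu)] with y hy hy'
    exact ⟨hy, hy'.1.le, hy'.2.le⟩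

/-- the even one of `m`, `m + 1` -/
def a5_lft (m : ℤ) : ℤ := if m % 2 = 0 then m else m + 1
/-- the odd one of `m`, `m + 1` -/
def a5_rgt (m : ℤ) : ℤ := if m % 2 = 0 then m + 1 else m
/-- direction of the walk `W` on branch `m` -/
def a5_sgn (W : ℤ → ℤ) (m : ℤ) : ℤ := W (a5_rgt m) - W (a5_lft m)

theorem a5_walk_par {W : ℤ → ℤ} (h0 : W 0 = 0) (h : ∀ m, 0 ≤ m → W (m + 1) = W m + 1 ∨ W (m + 1) = W m - 1)
    (m : ℤ) (hm : 0 ≤ m) : W m % 2 = m % 2 := by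
  induction m, hm using Int.leInduction with
  | base => rw [h0]
  | succ m hm ih => rcases h m hm with h | h <;> omega

theorem a5_sgn_pm {W : ℤ → ℤ} (h : ∀ m, 0 ≤ m → W (m + 1) = W m + 1 ∨ W (m + 1) = W m - 1)
    {m : ℤ} (hm : 0 ≤ m) : a5_sgn W m = 1 ∨ a5_sgn W m = -1 := by
  unfold a5_sgn a5_lft a5_rgt
  rcases h m hm with h | h <;> split_ifs <;> omega

/-- WIND -/
theorem a5_wind {X : Type*} [TopologicalSpace X] [T2Space X] {tri : ℝ → ℝ} (ht : Continuous tri)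
    (ht0 : ∀ m : ℤ, m % 2 = 0 → tri m = 0) (ht1 : ∀ m : ℤ, m % 2 = 1 → tri m = 1)
    {K : Set X} (hK : IsCompact K) (hc : IsPreconnected K) {z z' : X → ℝ} (hz : ContinuousOn z K)
    (hz' : ContinuousOn z' K) (h0 : ∀ x ∈ K, 0 ≤ z x) (h0' : ∀ x ∈ K, 0 ≤ z' x) {x0 y : X}
    (hx0 : x0 ∈ K) (hy : y ∈ K) (e0 : z x0 = 0) (e0' : z' x0 = 0) {G : ℤ} (hG0 : 0 ≤ G)
    (hG : (G : ℝ) ≤ z y) {a b : ℝ} (ha : 0 < a) (hb : 0 < b) (hab : a + b < 1)
    (hlo : ∀ x ∈ K, tri (z' x) = 0 → tri (z x) ≤ a)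
    (hhi : ∀ x ∈ K, tri (z' x) = 1 → 1 - b ≤ tri (z x))
    {W W' : ℤ → ℤ} (w0 : W 0 = 0) (w0' : W' 0 = 0)
    (w1 : ∀ m, 0 ≤ m → W (m + 1) = W m + 1 ∨ W (m + 1) = W m - 1)
    (w1' : ∀ m, 0 ≤ m → W' (m + 1) = W' m + 1 ∨ W' (m + 1) = W' m - 1)
    (ws : ∀ m, 0 ≤ m → m ≤ G → W G ≠ W' m ∧ W' G ≠ W m) {μ : ℝ} (hμ : 0 < μ) :
    ∃ m m' : ℤ, 0 ≤ m ∧ m < G ∧ 0 ≤ m' ∧ m' < G ∧ a5_sgn W m ≠ a5_sgn W' m' ∧
      ∃ K', IsCompact K' ∧ IsPreconnected K' ∧ K' ⊆ K ∧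
        (∀ x ∈ K', z x ∈ Ioo (m : ℝ) (m + 1) ∧ z' x ∈ Ioo (m' : ℝ) (m' + 1)) ∧
        (∃ x ∈ K', tri (z x) ≤ a + μ) ∧ ∃ x ∈ K', 1 - b - μ ≤ tri (z x) := by
  wlog hμ' : μ ≤ 1 / 2 generalizing μ
  · obtain ⟨m, m', h1, h2, h3, h4, h5, K', k1, k2, k3, k4, ⟨x, hx, hx'⟩, w, hw, hw'⟩ :=
      this (μ := 1 / 2) (by norm_num) le_rfl
    exact ⟨m, m', h1, h2, h3, h4, h5, K', k1, k2, k3, k4, ⟨x, hx, by linarith only [hμ', hx']⟩, w, hw, by linarith only [hμ', hw']⟩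
  obtain ⟨K1, k3, k1, k2, k5, k4, y1, hy1, hy1'⟩ := BB hK hc (φ := fun x => max (z x) (z' x))
    (hz.sup hz') (c := G) hx0 (by simp [e0, e0', hG0]) hy (hG.trans (le_max_left _ _))
  have hd : 0 < 1 - a - b := by linarith only [hab]
  obtain ⟨φ, hφ⟩ : ∃ φ : X → ℝ, ∀ x, φ x = max 0 (min 1 ((tri (z x) - a) / (1 - a - b))) :=
    ⟨_, fun _ => rfl⟩
  have hφc : ContinuousOn φ K1 := by
    rw [funext hφ]
    exact continuousOn_const.sup (continuousOn_const.inf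
      (((ht.comp_continuousOn (hz.mono k3)).sub continuousOn_const).div_const _))
  have p0 : ∀ x, tri (z x) ≤ a → φ x = 0 := fun x h => by
    rw [hφ]; exact max_eq_left ((min_le_right _ _).trans (div_nonpos_of_nonpos_of_nonneg (by linarith only [h]) hd.le))
  have p1 : ∀ x, 1 - b ≤ tri (z x) → φ x = 1 := fun x h => by
    rw [hφ, min_eq_left ((one_le_div hd).2 (by linarith only [h])), max_eq_right zero_le_one]
  have hzG : ∀ x ∈ K1, z x ≤ G ∧ z' x ≤ G := fun x hx => max_le_iff.1 (k4 x hx)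
  have q : ∀ x ∈ K1, ∀ m : ℤ, (z x = m ∨ z' x = m) →
      (m % 2 = 0 → φ x = 0) ∧ (m % 2 = 1 → φ x = 1) := by
    rintro x hx m (h | h)
    · exact ⟨fun hm => p0 x (by rw [h, ht0 m hm]; exact ha.le),
        fun hm => p1 x (by rw [h, ht1 m hm]; linarith only [hb])⟩
    · exact ⟨fun hm => p0 x (hlo x (k3 hx) (by rw [h, ht0 m hm])),
        fun hm => p1 x (hhi x (k3 hx) (by rw [h, ht1 m hm]))⟩
  have cont : ∀ (V : ℤ → ℤ) (ζ : X → ℝ), ContinuousOn ζ K1 → (∀ x ∈ K1, ∀ m : ℤ, ζ x = m →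
      (m % 2 = 0 → φ x = 0) ∧ (m % 2 = 1 → φ x = 1)) →
      ContinuousOn (fun x => (V (a5_lft ⌊ζ x⌋) : ℝ) + a5_sgn V ⌊ζ x⌋ * φ x) K1 := fun V ζ h1 h2 =>
    a5_glue (F := fun m x => (V (a5_lft m) : ℝ) + a5_sgn V m * φ x) h1
      (fun m => continuousOn_const.add (continuousOn_const.mul (hφc.mono inter_subset_left)))
      fun x hx m hm => by
        rcases Int.emod_two_eq_zero_or_one m with h | h
        · have : a5_lft (m - 1) = a5_lft m := by unfold a5_lft; split_ifs <;> omega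
          simp only [(h2 x hx m hm).1 h, this, mul_zero]
        · have : a5_rgt (m - 1) = a5_rgt m := by unfold a5_rgt; split_ifs <;> omega
          simp only [(h2 x hx m hm).2 h, a5_sgn, this]; push_cast; ring
  obtain ⟨Δ, hΔ⟩ : ∃ Δ : X → ℝ, ∀ x, Δ x = ((W (a5_lft ⌊z x⌋) : ℝ) + a5_sgn W ⌊z x⌋ * φ x) -
      ((W' (a5_lft ⌊z' x⌋) : ℝ) + a5_sgn W' ⌊z' x⌋ * φ x) := ⟨_, fun _ => rfl⟩
  have hΔc : ContinuousOn Δ K1 := by
    rw [funext hΔ]
    exact (cont W z (hz.mono k3) fun x hx m h => q x hx m (Or.inl h)).sub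
      (cont W' z' (hz'.mono k3) fun x hx m h => q x hx m (Or.inr h))
  have fl : ∀ x ∈ K1, (0 ≤ ⌊z x⌋ ∧ ⌊z x⌋ ≤ G) ∧ 0 ≤ ⌊z' x⌋ ∧ ⌊z' x⌋ ≤ G := fun x hx =>
    ⟨⟨Int.floor_nonneg.2 (h0 x (k3 hx)), Int.floor_le_iff.2 (by linarith only [(hzG x hx).1, ha, hb, hab])⟩,
      Int.floor_nonneg.2 (h0' x (k3 hx)), Int.floor_le_iff.2 (by linarith only [(hzG x hx).2, ha, hb, hab])⟩
  have d0 : ∀ x, φ x = 0 → Δ x = ((W (a5_lft ⌊z x⌋) - W' (a5_lft ⌊z' x⌋) : ℤ) : ℝ) := fun x h => by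
    rw [hΔ, h]; push_cast; ring
  have d1 : ∀ x, φ x = 1 → Δ x = ((W (a5_rgt ⌊z x⌋) - W' (a5_rgt ⌊z' x⌋) : ℤ) : ℝ) := fun x h => by
    rw [hΔ, h]; simp only [a5_sgn]; push_cast; ring
  have par : ∀ m m', 0 ≤ m → 0 ≤ m' → (W (a5_lft m) - W' (a5_lft m')) % 2 = 0 ∧
      (W (a5_rgt m) - W' (a5_rgt m')) % 2 = 0 := fun m m' hm hm' => by
    have a1 := a5_walk_par w0 w1 (a5_lft m) (by unfold a5_lft; split_ifs <;> omega)
    have a2 := a5_walk_par w0' w1' (a5_lft m') (by unfold a5_lft; split_ifs <;> omega)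
    have a3 := a5_walk_par w0 w1 (a5_rgt m) (by unfold a5_rgt; split_ifs <;> omega)
    have a4 := a5_walk_par w0' w1' (a5_rgt m') (by unfold a5_rgt; split_ifs <;> omega)
    have a5 : ∀ n, a5_lft n % 2 = 0 ∧ a5_rgt n % 2 = 1 := fun n => by
      unfold a5_lft a5_rgt; split_ifs <;> omega
    have := a5 m; have := a5 m'
    omega
  have dx0 : Δ x0 = 0 := by
    rw [d0 x0 ((q x0 k5 0 (Or.inl (by simpa using e0))).1 rfl), e0, e0']; simp [a5_lft, w0, w0']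
  have dy : ∃ e : ℤ, Δ y1 = e ∧ e % 2 = 0 ∧ e ≠ 0 := by
    obtain ⟨⟨f1, f2⟩, f3, f4⟩ := fl y1 hy1
    have hq := q y1 hy1 G ((max_eq_iff.1 hy1').imp And.left And.left)
    have hfl : ⌊z y1⌋ = G ∨ ⌊z' y1⌋ = G :=
      (max_eq_iff.1 hy1').imp (fun h => by rw [h.1, Int.floor_intCast]) fun h => by
        rw [h.1, Int.floor_intCast]
    rcases Int.emod_two_eq_zero_or_one G with h | h
    · refine ⟨_, d0 _ (hq.1 h), (par _ _ f1 f3).1, sub_ne_zero.2 ?_⟩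
      have hl : a5_lft G = G := if_pos h
      have hl' : ∀ m, 0 ≤ m → m ≤ G → 0 ≤ a5_lft m ∧ a5_lft m ≤ G := fun m _ _ => by
        unfold a5_lft; split_ifs <;> omega
      rcases hfl with h' | h' <;> rw [h', hl]
      exacts [(ws _ (hl' _ f3 f4).1 (hl' _ f3 f4).2).1, (ws _ (hl' _ f1 f2).1 (hl' _ f1 f2).2).2.symm]
    · refine ⟨_, d1 _ (hq.2 h), (par _ _ f1 f3).2, sub_ne_zero.2 ?_⟩
      have hl : a5_rgt G = G := if_neg (by omega)
      have hl' : ∀ m, 0 ≤ m → m ≤ G → 0 ≤ a5_rgt m ∧ a5_rgt m ≤ G := fun m _ _ => by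
        unfold a5_rgt; split_ifs <;> omega
      rcases hfl with h' | h' <;> rw [h', hl]
      exacts [(ws _ (hl' _ f3 f4).1 (hl' _ f3 f4).2).1, (ws _ (hl' _ f1 f2).1 (hl' _ f1 f2).2).2.symm]
  obtain ⟨e, he, he2, he0⟩ := dy
  obtain ⟨s, hs, hse⟩ : ∃ s : ℤ, (s = 1 ∨ s = -1) ∧ 2 ≤ s * e := by
    rcases le_total 0 e with h | h
    exacts [⟨1, Or.inl rfl, by omega⟩, ⟨-1, Or.inr rfl, by omega⟩]
  obtain ⟨K2, l3, l1, l2, l4, ⟨v0, hv0, hv0'⟩, v1, hv1, hv1'⟩ := BB2 k1 k2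
    (continuousOn_const.mul hΔc) (φ := fun x => (s : ℝ) * Δ x) (a := 2 * μ) (b := 2 - 2 * μ)
    (by linarith only [hμ']) k5 (by simp only [dx0, mul_zero]; linarith only [hμ]) hy1
    (by simp only [he]; have : (2 : ℝ) ≤ s * e := by exact_mod_cast hse
        linarith only [hμ, this])
  have nev : ∀ x ∈ K2, ∀ n : ℤ, Δ x = n → n % 2 ≠ 0 := fun x hx n hn h2 => by
    have h3 := l4 x hx
    simp only [hn] at h3
    have h4 : (0 : ℝ) < s * n := by linarith only [h3.1, hμ]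
    have h5 : (s * n : ℝ) < 2 := by linarith only [h3.2, hμ]
    have h6 : 0 < s * n := by exact_mod_cast h4
    have h7 : s * n < 2 := by exact_mod_cast h5
    rcases hs with rfl | rfl <;> omega
  have nint : ∀ x ∈ K2, ∀ n : ℤ, z x ≠ n ∧ z' x ≠ n := fun x hx n => by
    rw [← not_or]
    intro h
    obtain ⟨⟨f1, -⟩, f3, -⟩ := fl x (l3 hx)
    rcases Int.emod_two_eq_zero_or_one n with h2 | h2
    exacts [nev x hx _ (d0 x ((q x (l3 hx) n h).1 h2)) (par _ _ f1 f3).1,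
      nev x hx _ (d1 x ((q x (l3 hx) n h).2 h2)) (par _ _ f1 f3).2]
  have cst : ∀ ζ : X → ℝ, ContinuousOn ζ K2 → (∀ x ∈ K2, ∀ n : ℤ, ζ x ≠ n) →
      ∀ x ∈ K2, ζ x ∈ Ioo (⌊ζ v0⌋ : ℝ) (⌊ζ v0⌋ + 1) := fun ζ h1 h2 x hx => by
    refine ⟨lt_of_not_ge fun h => ?_, lt_of_not_ge fun h => ?_⟩
    · obtain ⟨w, hw, hw'⟩ := l2.intermediate_value hx hv0 h1 ⟨h, Int.floor_le _⟩
      exact h2 w hw _ hw'
    · obtain ⟨w, hw, hw'⟩ := l2.intermediate_value hv0 hx h1 ⟨(Int.lt_floor_add_one _).le, h⟩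
      exact h2 w hw (⌊ζ v0⌋ + 1) (by rw [hw']; push_cast; rfl)
  have c1 := cst z (hz.mono (l3.trans k3)) fun x hx n => (nint x hx n).1
  have c2 := cst z' (hz'.mono (l3.trans k3)) fun x hx n => (nint x hx n).2
  obtain ⟨⟨f1, -⟩, f3, -⟩ := fl v0 (l3 hv0)
  have g1 : ⌊z v0⌋ < G := by exact_mod_cast (c1 v0 hv0).1.trans_le (hzG v0 (l3 hv0)).1
  have g2 : ⌊z' v0⌋ < G := by exact_mod_cast (c2 v0 hv0).1.trans_le (hzG v0 (l3 hv0)).2
  have form : ∀ x ∈ K2, Δ x = ((W (a5_lft ⌊z v0⌋) - W' (a5_lft ⌊z' v0⌋) : ℤ) : ℝ) +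
      ((a5_sgn W ⌊z v0⌋ - a5_sgn W' ⌊z' v0⌋ : ℤ) : ℝ) * φ x := fun x hx => by
    rw [hΔ, Int.floor_eq_iff.2 ⟨(c1 x hx).1.le, (c1 x hx).2⟩,
      Int.floor_eq_iff.2 ⟨(c2 x hx).1.le, (c2 x hx).2⟩]
    push_cast; ring
  have hne : a5_sgn W ⌊z v0⌋ ≠ a5_sgn W' ⌊z' v0⌋ := fun h =>
    nev v0 hv0 _ (by rw [form v0 hv0, h]; simp) (par _ _ f1 f3).1
  refine ⟨_, _, f1, g1, f3, g2, hne, K2, l1, l2, l3.trans k3, fun x hx => ⟨c1 x hx, c2 x hx⟩, ?_⟩
  have r0 : ∀ x, 0 ≤ φ x ∧ φ x ≤ 1 := fun x => by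
    rw [hφ]; exact ⟨le_max_left _ _, max_le zero_le_one (min_le_left _ _)⟩
  have r1 : ∀ x, φ x ≤ μ → tri (z x) ≤ a + μ := fun x h => by
    rw [hφ, max_le_iff, min_le_iff, div_le_iff₀ hd] at h
    rcases h.2 with h | h <;> nlinarith only [ha, hb, hab, hμ', h, hμ]
  have r2 : ∀ x, 1 - μ ≤ φ x → 1 - b - μ ≤ tri (z x) := fun x h => by
    rw [hφ, le_max_iff, le_min_iff, le_div_iff₀ hd] at h
    rcases h with h | h
    · linarith only [ha, hb, hab, hμ', h]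
    · nlinarith only [h.2, ha, hb, hμ]
  obtain ⟨σ, hσ, hσ'⟩ : ∃ σ : ℤ, s * (a5_sgn W ⌊z v0⌋ - a5_sgn W' ⌊z' v0⌋) = σ ∧ (σ = 2 ∨ σ = -2) := by
    refine ⟨_, rfl, ?_⟩
    rcases hs with rfl | rfl <;> rcases a5_sgn_pm w1 f1 with h | h <;> rcases a5_sgn_pm w1' f3 with h' | h' <;>
      omega
  obtain ⟨n, hn, hn2⟩ : ∃ n : ℤ, s * (W (a5_lft ⌊z v0⌋) - W' (a5_lft ⌊z' v0⌋)) = n ∧ n % 2 = 0 := by
    refine ⟨_, rfl, ?_⟩
    have := (par _ _ f1 f3).1
    rcases hs with rfl | rfl <;> omega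
  have form' : ∀ x ∈ K2, (s : ℝ) * Δ x = n + σ * φ x := fun x hx => by
    rw [form x hx, ← hn, ← hσ]; push_cast; ring
  have t0 := (form' v0 hv0).symm.trans hv0'
  have t1 := (form' v1 hv1).symm.trans hv1'
  rcases hσ' with rfl | rfl
  · have u1 : (n : ℝ) < 2 := by push_cast at t0; linarith only [(r0 v0).1, ha, hb, hab, hμ', t0]
    have u2 : (-2 : ℝ) < n := by push_cast at t0; linarith only [(r0 v0).2, hμ, t0]
    have u3 : n = 0 := by
      have : n < 2 := by exact_mod_cast u1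
      have : -2 < n := by exact_mod_cast u2
      omega
    rw [u3] at t0 t1; push_cast at t0 t1
    exact ⟨⟨v0, hv0, r1 _ (by linarith only [t0])⟩, v1, hv1, r2 _ (by linarith only [t1])⟩
  · have u1 : (n : ℝ) < 4 := by push_cast at t0; linarith only [(r0 v0).2, ha, hb, hab, hμ', t0]
    have u2 : (0 : ℝ) < n := by push_cast at t0; linarith only [(r0 v0).1, hμ, t0]
    have u3 : n = 2 := by
      have : n < 4 := by exact_mod_cast u1
      have : 0 < n := by exact_mod_cast u2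
      omega
    rw [u3] at t0 t1; push_cast at t0 t1
    exact ⟨⟨v1, hv1, r1 _ (by linarith only [t1])⟩, v0, hv0, r2 _ (by linarith only [t0])⟩

theorem WIND {X : Type} [TopologicalSpace X] [T2Space X] {K : Set X} (hK : IsCompact K)
    (hc : IsPreconnected K) {z z' : X → ℝ} (hz : ContinuousOn z K) (hz' : ContinuousOn z' K)
    (h0 : ∀ x ∈ K, 0 ≤ z x ∧ 0 ≤ z' x) {w w' : ℕ → ℤ} (hw0 : w 0 = 0) (hw0' : w' 0 = 0)
    (hw : ∀ m, w (m + 1) = w m + 1 ∨ w (m + 1) = w m - 1)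
    (hw' : ∀ m, w' (m + 1) = w' m + 1 ∨ w' (m + 1) = w' m - 1) {G : ℕ}
    (hG : ∀ g ≤ G, w G ≠ w' g ∧ w' G ≠ w g) {x₀ x₁ : X} (hx₀ : x₀ ∈ K) (e₀ : z x₀ = 0)
    (e₀' : z' x₀ = 0) (hx₁ : x₁ ∈ K) (e₁ : (G : ℝ) ≤ z x₁) {a b μ : ℝ} (ha : 0 < a) (hb : 0 < b)
    (hab : a + b < 1) (hμ : 0 < μ)
    (hL : ∀ x ∈ K, tri (z' x) = 0 → tri (z x) ≤ a) (hR : ∀ x ∈ K, tri (z' x) = 1 → 1 - b ≤ tri (z x)) :
    ∃ m < G, ∃ m' < G, lab w m ≠ lab w' m' ∧ ∃ K' ⊆ K, IsCompact K' ∧ IsPreconnected K' ∧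
      (∀ x ∈ K', z x ∈ Ioo (m : ℝ) (m + 1) ∧ z' x ∈ Ioo (m' : ℝ) (m' + 1)) ∧
      (∃ x ∈ K', tri (z x) ≤ a + μ) ∧ ∃ x ∈ K', 1 - b - μ ≤ tri (z x) := by
  have st : ∀ v : ℕ → ℤ, (∀ m, v (m + 1) = v m + 1 ∨ v (m + 1) = v m - 1) → ∀ m : ℤ, 0 ≤ m →
      v (m + 1).toNat = v m.toNat + 1 ∨ v (m + 1).toNat = v m.toNat - 1 := fun v hv m hm => by
    rw [show (m + 1).toNat = m.toNat + 1 by omega]; exact hv _
  obtain ⟨m, m', h1, h2, h3, h4, h5, K', k1, k2, k3, k4, k5⟩ := a5_wind continuous_tri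
    (fun m hm => by
      have e : (m : ℝ) - 2 * ((m / 2 : ℤ) : ℝ) = 0 := by exact_mod_cast (by omega : m - 2 * (m / 2) = 0)
      rw [tri_of_abs_le (m / 2) (by rw [e]; simp), e, abs_zero])
    (fun m hm => by
      have e : (m : ℝ) - 2 * ((m / 2 : ℤ) : ℝ) = 1 := by exact_mod_cast (by omega : m - 2 * (m / 2) = 1)
      rw [tri_of_abs_le (m / 2) (by rw [e]; simp), e, abs_one])
    hK hc hz hz' (fun x hx => (h0 x hx).1) (fun x hx => (h0 x hx).2) hx₀ hx₁ e₀ e₀' (G := G)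
    (Int.natCast_nonneg G) (by exact_mod_cast e₁) ha hb hab hL hR (W := fun m => w m.toNat)
    (W' := fun m => w' m.toNat) hw0 hw0' (st w hw) (st w' hw')
    (fun m _ hm => by simpa using hG m.toNat (by omega)) hμ
  lift m to ℕ using h1
  lift m' to ℕ using h3
  have e : ∀ (v : ℕ → ℤ) (n : ℕ), a5_sgn (fun m => v m.toNat) n = v (rgt n) - v (lft n) := fun v n => by
    have e1 : (a5_rgt n).toNat = rgt n := by
      unfold a5_rgt rgt; simp only [Nat.even_iff]; split_ifs <;> omega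
    have e2 : (a5_lft n).toNat = lft n := by
      unfold a5_lft lft; simp only [Nat.even_iff]; split_ifs <;> omega
    simp only [a5_sgn, e1, e2]
  have p := a5_sgn_pm (W := fun m => w m.toNat) (st w hw) (Int.natCast_nonneg m)
  have p' := a5_sgn_pm (W := fun m => w' m.toNat) (st w' hw') (Int.natCast_nonneg m')
  rw [e] at p p' h5
  rw [e] at h5
  refine ⟨m, by exact_mod_cast h2, m', by exact_mod_cast h4, fun h => h5 ?_, K', k3, k1, k2,
    fun x hx => by simpa only [mem_Ioo, Int.cast_natCast] using k4 x hx, k5⟩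
  simp only [lab, decide_eq_decide] at h
  omega

theorem a6_main {E : Type} [MetricSpace E] [CompleteSpace E] {γ : ℝ → E} {Lk : ℕ → ℝ}
    {u : ℕ → ℝ → E} {f : ℕ → ℝ → ℝ} {ε : ℕ → ℝ} (hu : ∀ k, ContinuousOn (u k) (Icc 0 (Lk k)))
    (hε : Summable ε) (hd : ∀ k, ∀ t ∈ Icc 0 (Lk (k + 1)), dist (u (k + 1) t) (u k (f k t)) ≤ ε k)
    {M : Type} [MetricSpace M] [CompactSpace M] [ConnectedSpace M] (p : ℕ → M → ℝ)
    (hp : ∀ k, Continuous (p k)) (hsep : ∀ x y, (∀ k, p k x = p k y) → x = y)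
    (hm : ∀ k x, p k x ∈ Icc 0 (Lk k)) (hth : ∀ k x, f k (p (k + 1) x) = p k x) {D : Set M}
    (hD : Dense D) (h1 : ∀ x ∈ D, ∃ t, 0 ≤ t ∧ ∀ᶠ k in atTop, u k (p k x) = γ t)
    (h2 : ∀ t, 0 ≤ t → ∃ x, ∀ᶠ k in atTop, u k (p k x) = γ t) :
    IsWeaklyChainable (closure (γ '' Ici 0) : Set E) := by
  have hch : IsChainable M := isChainable_of_small_fibres fun δ hδ => by
    by_contra hcon
    push Not at hcon
    have hcl : ∀ k, IsClosed {z : M × M | δ ≤ dist z.1 z.2 ∧ p k z.1 = p k z.2} := fun k =>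
      (isClosed_le continuous_const continuous_dist).inter
        (isClosed_eq ((hp k).comp continuous_fst) ((hp k).comp continuous_snd))
    obtain ⟨z, hz⟩ := IsCompact.nonempty_iInter_of_sequence_nonempty_isCompact_isClosed
      (fun k => {z : M × M | δ ≤ dist z.1 z.2 ∧ p k z.1 = p k z.2})
      (fun k z hz => ⟨hz.1, by rw [← hth, ← hth k z.2, hz.2]⟩)
      (fun k => by
        obtain ⟨x, y, h, h'⟩ := hcon (p k) (hp k)
        exact ⟨(x, y), h', h⟩) (hcl 0).isCompact hcl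
    rw [mem_iInter] at hz
    have := (hz 0).1
    rw [hsep _ _ fun k => (hz k).2, dist_self] at this
    exact absurd hδ (not_lt.2 this)
  let s : ℕ → C(M, E) := fun k => ⟨fun x => u k (p k x), (hu k).comp_continuous (hp k) (hm k)⟩
  have hs : ∀ k x, dist (s k x) (s (k + 1) x) ≤ ε k := fun k x => by
    have := hd k _ (hm (k + 1) x)
    rwa [hth, dist_comm] at this
  obtain ⟨g, hg⟩ := cauchySeq_tendsto_of_complete (cauchySeq_of_dist_le_of_summable ε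
    (fun k => (ContinuousMap.dist_le (dist_nonneg.trans (hs k (Classical.arbitrary M)))).2 (hs k)) hε)
  have hv : ∀ x t, (∀ᶠ k in atTop, u k (p k x) = γ t) → g x = γ t := fun x t h =>
    tendsto_nhds_unique (((continuous_eval_const x).tendsto g).comp hg)
      (tendsto_const_nhds.congr' (h.mono fun k hk => hk.symm))
  have hmem : ∀ x, g x ∈ closure (γ '' Ici 0) := fun x =>
    map_mem_closure g.continuous (hD x) fun y hy => by
      obtain ⟨t, ht, h⟩ := h1 y hy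
      exact ⟨t, ht, (hv y t h).symm⟩
  have hG : Continuous fun x => (⟨g x, hmem x⟩ : closure (γ '' Ici 0)) :=
    g.continuous.subtype_mk _
  have hS : Function.Surjective fun x => (⟨g x, hmem x⟩ : closure (γ '' Ici 0)) := fun y => by
    obtain ⟨x, hx⟩ := closure_minimal (t := range g) (by
      rintro _ ⟨t, ht, rfl⟩
      obtain ⟨x, h⟩ := h2 t ht
      exact ⟨x, hv x t h⟩) (isCompact_range g.continuous).isClosed y.2
    exact ⟨x, Subtype.ext hx⟩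
  exact ⟨⟨hS.compactSpace hG, hS.connectedSpace hG⟩, M, inferInstance, hch, _, hG, hS⟩

/-- `f k ∘ ⋯ ∘ f (k + d - 1)` -/
def a6_F (f : ℕ → ℝ → ℝ) : ℕ → ℕ → ℝ → ℝ
  | 0, _, t => t
  | d + 1, k, t => f k (a6_F f d (k + 1) t)

theorem WC {E : Type} [MetricSpace E] [CompleteSpace E] (γ : ℝ → E) (Lk : ℕ → ℝ)
    (u : ℕ → ℝ → E) (f : ℕ → ℝ → ℝ) (ε : ℕ → ℝ) (hL : ∀ k : ℕ, (k : ℝ) + 1 ≤ Lk k)
    (hu : ∀ k, ContinuousOn (u k) (Icc 0 (Lk k)))
    (hf : ∀ k, ContinuousOn (f k) (Icc 0 (Lk (k + 1))))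
    (hfm : ∀ k, MapsTo (f k) (Icc 0 (Lk (k + 1))) (Icc 0 (Lk k)))
    (hid : ∀ k : ℕ, ∀ t ∈ Icc (0 : ℝ) (k + 1), f k t = t ∧ u k t = γ t)
    (hε : Summable ε) (hd : ∀ k, ∀ t ∈ Icc 0 (Lk (k + 1)), dist (u (k + 1) t) (u k (f k t)) ≤ ε k) :
    IsWeaklyChainable (closure (γ '' Ici 0) : Set E) := by
  have F1 : ∀ d k, ContinuousOn (a6_F f d k) (Icc 0 (Lk (k + d))) ∧
      MapsTo (a6_F f d k) (Icc 0 (Lk (k + d))) (Icc 0 (Lk k)) := fun d => by
    induction d with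
    | zero => exact fun k => ⟨continuousOn_id, fun t ht => ht⟩
    | succ d ih =>
      intro k
      have := ih (k + 1)
      rw [show k + 1 + d = k + (d + 1) by ring] at this
      exact ⟨(hf k).comp this.1 this.2, (hfm k).comp this.2⟩
  have F2 : ∀ d k : ℕ, ∀ t ∈ Icc (0 : ℝ) (k + 1), a6_F f d k t = t := fun d => by
    induction d with
    | zero => exact fun _ _ _ => rfl
    | succ d ih =>
      intro k t ht
      rw [a6_F, ih (k + 1) t ⟨ht.1, by push_cast; linarith [ht.2]⟩, (hid k t ht).1]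
  have F3 : ∀ d k : ℕ, ∀ t ∈ Icc (0 : ℝ) (k + d + 1), a6_F f (d + 1) k t = a6_F f d k t := fun d => by
    induction d with
    | zero => exact fun k t ht => (hid k t (by simpa only [mem_Icc, CharP.cast_eq_zero, add_zero] using ht)).1
    | succ d ih =>
      intro k t ht
      rw [a6_F, ih (k + 1) t ⟨ht.1, by push_cast at ht ⊢; linarith [ht.2]⟩]; rfl
  have hI : ∀ n k : ℕ, Icc (0 : ℝ) n ⊆ Icc 0 (Lk (k + n)) := fun n k => Icc_subset_Icc_right (by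
    have := hL (k + n); push_cast at this; linarith [Nat.cast_nonneg (α := ℝ) k])
  let A : Set (ℕ → ℝ) := ⋃ n : ℕ, (fun t k => a6_F f n k t) '' Icc (0 : ℝ) n
  have hA : IsPreconnected A := isPreconnected_iUnion ⟨fun _ => 0, mem_iInter.2 fun n =>
      ⟨0, ⟨le_rfl, n.cast_nonneg⟩, funext fun k => F2 n k 0 ⟨le_rfl, by positivity⟩⟩⟩
    fun n => isPreconnected_Icc.image _ (continuousOn_pi.2 fun k => (F1 n k).1.mono (hI n k))
  have hB : IsCompact (univ.pi fun k => Icc 0 (Lk k)) := isCompact_univ_pi fun k => isCompact_Icc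
  have hAB : closure A ⊆ univ.pi fun k => Icc 0 (Lk k) := closure_minimal (by
    rintro _ ⟨_, ⟨n, rfl⟩, t, ht, rfl⟩ k -
    exact (F1 n k).2 (hI n k ht)) hB.isClosed
  have hT : ∀ k, closure A ⊆ {x ∈ univ.pi fun k => Icc 0 (Lk k) | f k (x (k + 1)) = x k} := fun k =>
    closure_minimal (fun x hx => ⟨hAB (subset_closure hx), by
      obtain ⟨_, ⟨n, rfl⟩, t, ht, rfl⟩ := hx
      exact F3 n k t ⟨ht.1, by linarith [ht.2, Nat.cast_nonneg (α := ℝ) k]⟩⟩)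
      (hB.isClosed.isClosed_eq ((hf k).comp (continuous_apply (k + 1)).continuousOn
        fun x hx => hx _ trivial) (continuous_apply k).continuousOn)
  have ev : ∀ n : ℕ, ∀ t ∈ Icc (0 : ℝ) n, ∀ᶠ k in atTop, u k (a6_F f n k t) = γ t := fun n t ht => by
    filter_upwards [eventually_ge_atTop n] with k hk
    have h : t ∈ Icc (0 : ℝ) (k + 1) := ⟨ht.1, by linarith only [ht.2, (Nat.cast_le (α := ℝ)).2 hk]⟩
    rw [F2 n k t h, (hid k t h).2]
  have c1 : CompactSpace (closure A) :=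
    isCompact_iff_compactSpace.1 (hB.of_isClosed_subset isClosed_closure hAB)
  have c2 : ConnectedSpace (closure A) := isConnected_iff_connectedSpace.1
    ⟨⟨_, subset_closure (mem_iUnion.2 ⟨0, 0, ⟨le_rfl, by simp⟩, rfl⟩)⟩, hA.closure⟩
  have c3 : ∀ k, Continuous fun x : closure A => x.1 k := fun k =>
    (continuous_apply k).comp continuous_subtype_val
  have c4 : Dense {x : closure A | x.1 ∈ A} := fun x => by
    rw [closure_subtype]
    refine closure_mono (fun y hy => ?_) x.2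
    exact ⟨⟨y, subset_closure hy⟩, hy, rfl⟩
  exact @a6_main E _ _ γ Lk u f ε hu hε hd (closure A) (TopologicalSpace.metrizableSpaceMetric _)
    c1 c2 (fun k x => x.1 k) c3 (fun x y h => Subtype.ext (funext h))
    (fun k x => hAB x.2 k trivial) (fun k x => (hT k x.2).2) _ c4
    (by
      rintro ⟨_, h⟩ ⟨_, ⟨n, rfl⟩, t, ht, rfl⟩
      exact ⟨t, ht.1, ev n t ht⟩)
    fun t ht => ⟨⟨_, subset_closure (mem_iUnion.2 ⟨⌈t⌉₊, t, ⟨ht, Nat.le_ceil t⟩, rfl⟩)⟩,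
      ev _ t ⟨ht, Nat.le_ceil t⟩⟩

end Pool.Agent.MP_d9472f_gt.Q2
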